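import Pool.Agent.Helper61.QT.Main
import Pool.Agent.Helper61.QG.FinalS
import Pool.Agent.Helper13.QT.DAT2
import Pool.Agent.Helper14.QT.TOR
import Pool.Agent.Helper22.QT.OD5
import Pool.Agent.Helper24.QT.K3
import Pool.Agent.Helper28.QT.QC0
import Pool.Agent.Helper32.QT.LP2
import Pool.Agent.Helper35.QT.E1
import Pool.Agent.Helper35.QT.GBX
import Pool.Agent.Helper35.QT.GKC
import Pool.Agent.Helper35.QT.K4
import Pool.Agent.Helper35.QT.PL2
import Pool.Agent.Helper35.QT.T3
import Pool.Agent.Helper40.QT.K1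
import Pool.Agent.Helper40.QT.K2
import Pool.Agent.Helper49.QT.E2
import Pool.Agent.Helper49.QT.GKG
import Pool.Agent.Helper64.QT.HOL2
import Pool.Agent.Helper82.QT.DES2
import Pool.Agent.Helper85.QT.T2
import Pool.Agent.Helper86.QT.COMT
import Pool.Agent.Helper86.QT.GFR
import Pool.Agent.Helper93.QT.EJ2
import Pool.Agent.Helper93.QT.T1

/-!
# Project QT (MP_0ebdb3_gt): all goals together
-/

set_option autoImplicit false

namespace Pool.Agent.Helper61.QT

open Pool.Agent Pool.Agent.Helper61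

theorem allGKC : G_GKC := Helper35.QT.goalGKC (Helper86.QT.goalGFR Helper5.QS.goalISO)
  (Helper49.QT.goalGKG QS.allG2)

theorem allGBX : G_GBX := Helper35.QT.goalGBX Helper86.QS.goalG3

theorem allTOR : G_TOR := Helper14.QT.goalTOR Helper35.QT.goalPL2 allGBX
  (Helper93.QT.goalT1 Helper35.QT.goalPL2 allGBX) (Helper35.QT.goalT3 Helper85.QT.goalT2)

theorem allHOL2 : G_HOL2 := Helper64.QT.goalHOL2 Helper89.QS.goalOD1 Helper59.QS.goalOD2 QS.allOD3
  Helper22.QT.goalOD5 (Helper86.QT.goalCOM2 Helper59.QS.goalOD2 QS.allOD4)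

theorem allK4 : G_K4 := Helper35.QT.goalK4 (Helper24.QT.goalK3 Helper40.QT.K1.goalK1 Helper40.QT.goalK2)
  QS.allCW QS.allCLB

theorem allDES2 : G_DES2 := Helper82.QT.goalDES2 Helper35.QT.goalE1 Helper49.QT.E2.goalE2
  Helper5.QS.goalISO

theorem allOPT : G_OPT := opMain allGKC allTOR Helper35.QT.goalPL2
  (Helper13.QT.goalDAT2 Helper35.QT.goalPL2) allHOL2 Helper5.QS.goalISO Helper32.QT.goalLP2
  (Helper28.QT.goalQC0 QS.allCORE) allK4 (Helper93.QT.goalEJ2 Helper32.QT.goalLP2) allDES2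

theorem allMT : QM.G_MT := mainT allOPT Helper22.QG.goalCVI Helper35.QG.goalCVX
  Helper87.QG.goalCVB Helper23.QG.goalCVT Helper35.QG.goalCVS

end Pool.Agent.Helper61.QT
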