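import Pool.Agent.Helper61.QT.MainP
import Pool.Agent.Helper61.QT.Final
import Pool.Agent.Helper12.QT.KS
import Pool.Agent.Helper14.QT.SPL
import Pool.Agent.Helper15.QT.TRP
import Pool.Agent.Helper32.QT.TD
import Pool.Agent.Helper32.QT.TK
import Pool.Agent.Helper36.QT.POI
import Pool.Agent.Helper39.QT.DTP
import Pool.Agent.Helper84.QT.WAL
import Pool.Agent.Helper86.QT.VL
import Pool.Agent.Helper97.QT.DIV

/-!
# Project QT+ (MP_0ebdb3_gt): all goals together
-/

set_option autoImplicit false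

namespace Pool.Agent.Helper61.QT

open Pool.Agent Pool.Agent.Helper61

theorem allTD : G_TD := Helper32.QT.goalTD Helper86.QT.goalVL Helper84.QT.goalWAL
  Helper97.QT.goalDIV Helper35.QT.goalPL2

theorem allTRP : G_TRP := Helper15.QT.goalTRP Helper35.QT.goalPL2 allGBX
  (Helper32.QT.goalTK Helper35.QT.goalPL2 allGBX QS.allG2) (Helper35.QT.goalT3 Helper85.QT.goalT2)

theorem allOPP : G_OPP := opMainP (Helper12.QT.goalKS allGKC) allTD allTRP Helper36.QT.goalPOI
  (Helper39.QT.goalDTP Helper35.QT.goalPL2) Helper14.QT.goalSPL Helper35.QT.goalPL2 allHOL2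
  Helper5.QS.goalISO Helper32.QT.goalLP2 (Helper28.QT.goalQC0 QS.allCORE) allK4
  (Helper93.QT.goalEJ2 Helper32.QT.goalLP2) allDES2

theorem allMP : QM.G_MP := mainP allOPP Helper35.QG.goalCVX Helper87.QG.goalCVB
  Helper23.QG.goalCVT Helper35.QG.goalCVS

end Pool.Agent.Helper61.QT
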