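import Pool.Agent.Helper61.QG.Defs
import Pool.Agent.Helper61.QM.StmtT
import Pool.Agent.Helper61.QS.GoalsG

/-!
# Project QT (MP_0ebdb3_gt): torus-invariant souls; block G (curvature)

Operator level definitions: `Pool/Agent/Helper61/QG/Defs.lean` (for a general `Model`); the manifolds
`Mab a b` and the polar coordinates `pol2` are in `Pool/Agent/Helper61/QM/StmtT.lean`.  Points of `R4` are
`(r, s, α, β)`, `∂r = (1,0,0,0)`, `∂s = (0,1,0,0)`.
-/

set_option autoImplicit false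

open Set

namespace Pool.Agent.Helper61.QT

open Pool.Agent.Helper61 Pool.Agent.Helper61.QG
open Pool.Agent.Helper61.QS (V En rk R4 IsCurv SecNN Gam dd)
open Pool.Agent.Helper61.QM (Model W2 Mab pol2 act2 o1 o2 rot IsRe IsIm)

section generic

variable {WW : Type} [NormedAddCommGroup WW] [NormedSpace ℝ WW]

/-- a system of coordinates `p : R4 → X`, transversal to the orbits on an open dense set -/
structure IsPolar (M : Model WW) (p : R4 → WW) (Reg : Set R4) : Prop where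
  smooth : ContDiff ℝ 3 p
  mem : ∀ x, p x ∈ M.X
  tan : ∀ x c, fderiv ℝ p x c ∈ M.T (p x)
  isOpen : IsOpen Reg
  dense : Dense Reg
  trans : ∀ x ∈ Reg, ∀ c, fderiv ℝ p x c ∈ M.O (p x) → c = 0

/-- `B(∂r)` -/
noncomputable def bG {n : ℕ} (B : WW → WW →L[ℝ] En n) (p : R4 → WW) (x : R4) : En n :=
  B (p x) (fderiv ℝ p x (1, 0, 0, 0))

/-- `B(∂s)` -/
noncomputable def cG {n : ℕ} (B : WW → WW →L[ℝ] En n) (p : R4 → WW) (x : R4) : En n :=
  B (p x) (fderiv ℝ p x (0, 1, 0, 0))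

/-- the curvature of the connection on `∂r, ∂s` -/
noncomputable def FG {n : ℕ} (B : WW → WW →L[ℝ] En n) (p : R4 → WW) (x : R4) : En n :=
  fderiv ℝ (cG B p) x (1, 0, 0, 0) - fderiv ℝ (bG B p) x (0, 1, 0, 0) -
    (bG B p x * cG B p x - cG B p x * bG B p x)

end generic

/-- **G-GFR** (generic version of `QS.G_FR`; port `Pool/Agent/Helper4/QS/FR.lean`, replacing `W, pol` by
`WW, p`; the isometry from `QS.G_ISO`).  Proof as there: `s x = (e (p x) * (1 + L (x - x0))).comp J`,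
`L c = B (p x0) (fderiv ℝ p x0 c)`. -/
def G_GFR : Prop := ∀ (WW : Type) [NormedAddCommGroup WW] [NormedSpace ℝ WW] (M : Model WW)
  (p : R4 → WW) (Reg : Set R4) (k n : ℕ) (e : WW → En n) (B : WW → WW →L[ℝ] En n),
  IsPolar M p Reg → IsBundle M k e B →
  ∀ x0 ∈ Reg, ∃ (U : Set R4) (s : R4 → (V k →L[ℝ] V n)), IsChart M k e U p s ∧ x0 ∈ U ∧
    ∀ a, fderiv ℝ s x0 a = (B (p x0) (fderiv ℝ p x0 a)).comp (s x0)

/-- **G-GKG** (generic version of `QS.G_KG`; port `Pool/Agent/Helper45/QS/KG.lean`; uses `QS.G_G2`).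
Proof as there. -/
def G_GKG : Prop := ∀ (WW : Type) [NormedAddCommGroup WW] [NormedSpace ℝ WW] (M : Model WW)
  (p : R4 → WW) (Reg : Set R4) (k n : ℕ) (e : WW → En n) (B : WW → WW →L[ℝ] En n)
  (gM : WW → WW →L[ℝ] WW →L[ℝ] ℝ) (γ : WW × V n → V n →L[ℝ] V n →L[ℝ] ℝ) (ρ : ℝ),
  IsPolar M p Reg → IsBundle M k e B → IsBase M gM → IsFibre M ρ e γ →
  ∀ (U : Set R4) (s : R4 → (V k →L[ℝ] V n)), IsChart M k e U p s → ∀ x0 ∈ U,
    (∀ a, fderiv ℝ s x0 a = (B (p x0) (fderiv ℝ p x0 a)).comp (s x0)) →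
    ∀ (w : V k), ‖s x0 w‖ < ρ →
      e (p x0) (FG B p x0 (s x0 w)) = FG B p x0 (s x0 w) ∧
      ∀ K, IsCurv (gB gM p) x0 (1, 0, 0, 0) (0, 1, 0, 0) K →
        IsCurv (gT gM γ B p s) (x0, w) ((1, 0, 0, 0), 0) ((0, 1, 0, 0), 0)
          (K - 3 / 4 * γ (p x0, s x0 w) (FG B p x0 (s x0 w)) (FG B p x0 (s x0 w)))

/-- **G-GKC** (generic version of `QS.G_KC`; port `Pool/Agent/Helper28/QS/KC.lean`; uses `G_GFR`,
`G_GKG`).  Proof as there. -/
def G_GKC : Prop := ∀ (WW : Type) [NormedAddCommGroup WW] [NormedSpace ℝ WW] (M : Model WW)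
  (p : R4 → WW) (Reg : Set R4) (k n : ℕ) (e : WW → En n) (B : WW → WW →L[ℝ] En n)
  (gM : WW → WW →L[ℝ] WW →L[ℝ] ℝ) (γ : WW × V n → V n →L[ℝ] V n →L[ℝ] ℝ) (ρ : ℝ),
  IsPolar M p Reg → IsBundle M k e B → IsBase M gM → IsFibre M ρ e γ → 0 < ρ →
  TubeSec M k ρ e B gM γ →
  ∀ x0 ∈ Reg, ∀ K, IsCurv (gB gM p) x0 (1, 0, 0, 0) (0, 1, 0, 0) K →
    0 ≤ K ∧ (K = 0 → FG B p x0 * e (p x0) = 0)

/-- **G-GBX** (generic version of `QS.G_BX`; port `Pool/Agent/Helper24/QS/BX.lean`; uses `QS.G_G3`).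
Proof as there (`M.O` contains `τ • orb` in the old version; here positivity is for `u ∉ M.O P`). -/
def G_GBX : Prop := ∀ (WW : Type) [NormedAddCommGroup WW] [NormedSpace ℝ WW] (M : Model WW)
  (p : R4 → WW) (Reg : Set R4) (gM : WW → WW →L[ℝ] WW →L[ℝ] ℝ), IsPolar M p Reg → IsBase M gM →
  ContDiff ℝ 2 (gB gM p) ∧ (∀ x u v, gB gM p x u v = gB gM p x v u) ∧
  (∀ x ∈ Reg, ∀ u, u ≠ 0 → 0 < gB gM p x u u) ∧
  ∀ x ∈ Reg, ∃ K, IsCurv (gB gM p) x (1, 0, 0, 0) (0, 1, 0, 0) K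

/-- the regular points of the polar coordinates of `M_{a,b}` -/
def Reg2 : Set R4 :=
  {x | Real.sin x.1 ≠ 0 ∧ Real.cos x.1 ≠ 0 ∧ Real.sin x.2.1 ≠ 0 ∧ Real.cos x.2.1 ≠ 0}

/-- **G-PL2** (facts on the polar coordinates `pol2`; cf. `Pool/Agent/Helper8/QS/PL.lean`).
Proof.  Direct.  Transversality: `Dpol2 c = σ o1 + τ o2` reads `-sin r c_r = i (σ + bτ) cos r`,
`cos r c_r + i sin r c_α = i σ sin r`, `-sin s c_s = i (aσ + τ) cos s`,
`cos s c_s + i sin s c_β = i τ sin s`; so `c_r = c_s = 0`, `σ + bτ = 0`, `aσ + τ = 0`, `c_α = σ`,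
`c_β = τ`, and `(1 - ab) σ = 0`, `(1 - ab) τ = 0`. -/
def G_PL2 : Prop := ∀ (a b : ℤ), a * b ≠ 1 →
  IsPolar (Mab a b) pol2 Reg2 ∧
  ∀ x c : R4, fderiv ℝ pol2 x c =
    ((-(Real.sin x.1 * c.1 : ℂ), Complex.exp (x.2.2.1 * Complex.I) *
        (Real.cos x.1 * c.1 + Complex.I * Real.sin x.1 * c.2.2.1)),
      (-(Real.sin x.2.1 * c.2.1 : ℂ), Complex.exp (x.2.2.2 * Complex.I) *
        (Real.cos x.2.1 * c.2.1 + Complex.I * Real.sin x.2.1 * c.2.2.2)))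

/-- torus-invariant metrics, operator level -/
structure IsToricG (gM : W2 → W2 →L[ℝ] W2 →L[ℝ] ℝ) : Prop where
  rot : ∀ c : W2, ‖c.1.1‖ = 1 → ‖c.1.2‖ = 1 → ‖c.2.1‖ = 1 → ‖c.2.2‖ = 1 →
    ∀ P ∈ (Mab 0 0).X, ∀ u ∈ (Mab 0 0).T P, ∀ u' ∈ (Mab 0 0).T P,
      gM (rot c P) (rot c u) (rot c u') = gM P u u'
  polar : ∀ P ∈ (Mab 0 0).X, ∀ u ∈ (Mab 0 0).T P, ∀ v, IsRe P → IsRe u → IsIm v → gM P u v = 0

/-- derivative in the first variable -/
noncomputable def d1 (E : ℝ × ℝ → ℝ) (z : ℝ × ℝ) : ℝ := fderiv ℝ E z (1, 0)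

/-- derivative in the second variable -/
noncomputable def d2 (E : ℝ × ℝ → ℝ) (z : ℝ × ℝ) : ℝ := fderiv ℝ E z (0, 1)

/-- `κ = K_Gauss (EG - F²)` for the metric `E dr² + 2 F dr ds + G ds²`, up to the formula in first
and second derivatives -/
noncomputable def kap2 (E F G : ℝ × ℝ → ℝ) (z : ℝ × ℝ) : ℝ :=
  -(d2 (d2 E) z + d1 (d1 G) z - 2 * d1 (d2 F) z) / 2 +
    (G z * (d2 E z) ^ 2 / 4 - F z * d2 E z * d1 G z / 2 + E z * (d1 G z) ^ 2 / 4 -
      (G z * (d1 E z / 2) * (d2 F z - d1 G z / 2) -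
        F z * (d1 E z * d2 G z / 4 + (d1 F z - d2 E z / 2) * (d2 F z - d1 G z / 2)) +
        E z * (d1 F z - d2 E z / 2) * (d2 G z / 2))) / (E z * G z - F z ^ 2)

/-- **G-T1** (a torus-invariant metric of `M_{a,b}` restricted to the planes `∂r, ∂s` is a metric of the
`(r,s)`-plane; uses `G_PL2`, `G_GBX`).

Proof.  `h x u v = gB gM pol2 x u v = gM (pol2 x) (Dpol2 u) (Dpol2 v)`.  With
`c = ((1, e^{iα}), (1, e^{iβ}))`, `pol2 (r,s,α,β) = rot c (pol2 (r,s,0,0))` and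
`Dpol2(x) u = rot c (Dpol2(r,s,0,0) u)`, so `h (r,s,α,β) = h (r,s,0,0)` by `rot`.  At `α = β = 0` the
point is real, `Dpol2 ∂r, Dpol2 ∂s` are real and `Dpol2 ∂α, Dpol2 ∂β` are imaginary: `h ∂r ∂α = 0` etc.
(`polar`; symmetry).  `E = h ∂r ∂r, F = h ∂r ∂s, G = h ∂s ∂s` at `(r,s,0,0)`: `C²` (`G_GBX`).
Periodicity: `pol2 (r + π, s, 0, 0) = rot ((-1,-1),(1,1)) (pol2 (r,s,0,0))`, same for the derivatives,
and similarly for `s`.  Positivity at ALL `(r,s)`: for `(u,v) ≠ 0` real the vector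
`Dpol2 (u ∂r + v ∂s)` is not in `(Mab a b).O`: it is real, and a real `σ o1 + τ o2` at a real point
vanishes (all its coordinates are imaginary), whereas `Dpol2 (u ∂r + v ∂s) ≠ 0`
(`= ((-u sin r, u cos r), (-v sin s, v cos s))`).  So `E u² + 2 F u v + G v² > 0`: `E > 0` and
`E G - F² > 0` (take `(u,v) = (1,0)` and `(-F, E)`).
Curvature number at `x ∈ Reg2`: let `cab, caa, cbb` be as in `IsCurv` (`a = ∂r, b = ∂s`).  As the
coefficients of `h` do not depend on `α, β` and `h ∂r ∂α = 0` etc., `Gam h x u v w = 0` for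
`u, v ∈ {∂r,∂s}`, `w ∈ {∂α,∂β}`; so the `cab` etc. are orthogonal to `∂α, ∂β` and, `h` being positive
definite and block diagonal, they are combinations of `∂r, ∂s`.  `h cab cab` etc. is then computed with
the inverse of the matrix `(E,F;F,G)`: for `c = c¹∂r + c²∂s` with `h c ∂r = p`, `h c ∂s = q` and
`c'` with `p', q'`: `h c c' = (G p p' - F (p q' + q p') + E q q')/(EG - F²)`.  For `cab`:
`p = E_s/2, q = G_r/2`; `caa`: `p = E_r/2, q = F_r - E_s/2`; `cbb`: `p = F_s - G_r/2, q = G_s/2`.  And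
`dd (h b b) a a = G_rr`, `dd (h a a) b b = E_ss`, `dd (h a b) a b = F_rs`. -/
def G_T1 : Prop := ∀ (a b : ℤ) (gM : W2 → W2 →L[ℝ] W2 →L[ℝ] ℝ), a * b ≠ 1 →
  IsBase (Mab a b) gM → IsToricG gM →
  ∃ E F G : ℝ × ℝ → ℝ, ContDiff ℝ 2 E ∧ ContDiff ℝ 2 F ∧ ContDiff ℝ 2 G ∧
    (∀ r s, E (r + Real.pi, s) = E (r, s) ∧ F (r + Real.pi, s) = F (r, s) ∧
      G (r + Real.pi, s) = G (r, s)) ∧
    (∀ r s, E (r, s + Real.pi) = E (r, s) ∧ F (r, s + Real.pi) = F (r, s) ∧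
      G (r, s + Real.pi) = G (r, s)) ∧
    (∀ z, 0 < E z ∧ 0 < E z * G z - F z ^ 2) ∧
    ∀ x ∈ Reg2, ∀ K, IsCurv (gB gM pol2) x (1, 0, 0, 0) (0, 1, 0, 0) K →
      K = kap2 E F G (x.1, x.2.1)

/-- `√(EG - F²)` -/
noncomputable def vol (E F G : ℝ × ℝ → ℝ) (z : ℝ × ℝ) : ℝ := Real.sqrt (E z * G z - F z ^ 2)

/-- first component of the divergence form of the curvature -/
noncomputable def PP (E F G : ℝ × ℝ → ℝ) (z : ℝ × ℝ) : ℝ :=
  (2 * E z * d1 F z - E z * d2 E z - F z * d1 E z) / (2 * E z * vol E F G z)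

/-- second component of the divergence form of the curvature -/
noncomputable def QQ (E F G : ℝ × ℝ → ℝ) (z : ℝ × ℝ) : ℝ :=
  (E z * d1 G z - F z * d2 E z) / (2 * E z * vol E F G z)

/-- **G-T2** (Liouville's formula: the curvature form is a divergence).
Proof.  `PP, QQ` are quotients of `C¹` functions with nonzero denominators, so `C¹`; expand the
derivatives: `d2 PP` and `d1 QQ` by the quotient rule, `d (vol) = d (EG - F²)/(2 vol)`,
`vol² = EG - F²`, `d1 (d2 E) = d2 (d1 E)` etc. (second derivatives of `C²` functions commute).  The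
identity is then polynomial after multiplication by `E² vol³` (checked numerically with random
values of `E, F, G` and their first and second derivatives): `field_simp`, replace `vol²`, `ring`. -/
def G_T2 : Prop := ∀ E F G : ℝ × ℝ → ℝ, ContDiff ℝ 2 E → ContDiff ℝ 2 F → ContDiff ℝ 2 G →
  (∀ z, 0 < E z ∧ 0 < E z * G z - F z ^ 2) →
  ContDiff ℝ 1 (PP E F G) ∧ ContDiff ℝ 1 (QQ E F G) ∧
  ∀ z, kap2 E F G z / vol E F G z = d2 (PP E F G) z - d1 (QQ E F G) z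

/-- **G-T3** (Gauss-Bonnet on the torus; uses `G_T2`).
Proof.  `κ/vol = d2 PP - d1 QQ` is continuous, periodic of period `π` in both variables (`PP, QQ` are:
derivatives of periodic functions).  Its integral over `[0,π] × [0,π]` is `0`: for fixed `r`,
`∫_0^π d2 PP (r,s) ds = PP(r,π) - PP(r,0) = 0` (fundamental theorem of calculus), and for fixed `s`
`∫_0^π d1 QQ dr = 0`; Fubini (continuous functions on a rectangle).  If `κ ≥ 0` everywhere, a continuous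
nonnegative function with integral `0` over the square vanishes on the square
(`MeasureTheory` / or: if it is `> 0` at a point, iterate: `r ↦ ∫ ds` is continuous, nonnegative, with
integral `0`, so `0`, and then the inner function is `0`), and by periodicity everywhere. -/
def G_T3 : Prop := ∀ E F G : ℝ × ℝ → ℝ, ContDiff ℝ 2 E → ContDiff ℝ 2 F → ContDiff ℝ 2 G →
  (∀ z, 0 < E z ∧ 0 < E z * G z - F z ^ 2) →
  (∀ r s, E (r + Real.pi, s) = E (r, s) ∧ F (r + Real.pi, s) = F (r, s) ∧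
    G (r + Real.pi, s) = G (r, s)) →
  (∀ r s, E (r, s + Real.pi) = E (r, s) ∧ F (r, s + Real.pi) = F (r, s) ∧
    G (r, s + Real.pi) = G (r, s)) →
  (∀ z, 0 ≤ kap2 E F G z) → ∀ z, kap2 E F G z = 0

/-- **G-TOR** (torus-invariant metrics with `κ(∂r,∂s) ≥ 0` are flat on these planes; uses `G_PL2`,
`G_GBX`, `G_T1`, `G_T3`).
Proof.  `E, F, G` from `G_T1`.  For `x ∈ Reg2` the number `K` exists (`G_GBX`), is `≥ 0` and equals
`kap2 E F G (x.1, x.2.1)`; so `kap2 ≥ 0` at all `(r,s)` with `sin r cos r sin s cos s ≠ 0`, a dense set,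
hence everywhere (`kap2` is continuous).  `G_T3`: `kap2 = 0`, so `K = 0`. -/
def G_TOR : Prop := ∀ (a b : ℤ) (gM : W2 → W2 →L[ℝ] W2 →L[ℝ] ℝ), a * b ≠ 1 →
  IsBase (Mab a b) gM → IsToricG gM →
  (∀ x ∈ Reg2, ∀ K, IsCurv (gB gM pol2) x (1, 0, 0, 0) (0, 1, 0, 0) K → 0 ≤ K) →
  ∀ x ∈ Reg2, IsCurv (gB gM pol2) x (1, 0, 0, 0) (0, 1, 0, 0) 0

end Pool.Agent.Helper61.QT
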