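import Pool.Agent.Helper61.QT.GoalsG

/-!
# Project QT (MP_0ebdb3_gt): torus-invariant souls; blocks C (functional equation), H (holonomy),
A (assembly, descent)

Points of `R4` are `(r, s, α, β)`.  `a, b` are the integers of `M_{a,b}`: either `b = 0` or
`(a,b) = (1,2)`.  The corner points of the rectangle are `(0,0), (π/2,0), (0,π/2), (π/2,π/2)`.
-/

set_option autoImplicit false

open Set NormedSpace

namespace Pool.Agent.Helper61.QT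

open Pool.Agent.Helper61 Pool.Agent.Helper61.QG
open Pool.Agent.Helper61.QS (V En tr rk R4 UC IsIso compr Loops CoreConcl IsTrans)
open Pool.Agent.Helper61.QM (Model W2 Mab pol2 act2 o1 o2)

/-! ### The functional equation -/

/-- the transports along the four edges of the rectangle -/
structure LoopsG (a b : ℤ) (k : ℕ) (g f v l : ℝ → En k) : Prop where
  unit : ∀ x, g x ∈ unitary (En k) ∧ f x ∈ unitary (En k) ∧ v x ∈ unitary (En k) ∧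
    l x ∈ unitary (En k)
  smg : ContDiff ℝ 1 g
  smf : ContDiff ℝ 1 f
  smv : ContDiff ℝ 1 v
  sml : ContDiff ℝ 1 l
  per : ∀ x, g (x + 2 * Real.pi) = g x ∧ f (x + 2 * Real.pi) = f x ∧
    v (x + 2 * Real.pi) = v x ∧ l (x + 2 * Real.pi) = l x
  one : g 0 = 1 ∧ f 0 = 1 ∧ v 0 = 1 ∧ l 0 = 1
  rel : ∀ α β : ℝ, v (β + a * α) * g α = l (α + b * β) * f β

/-- the unit square (times `ℝ²`) -/
def Sq : Set R4 := {x | 0 ≤ x.1 ∧ x.1 ≤ 1 ∧ 0 ≤ x.2.1 ∧ x.2.1 ≤ 1}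

/-- the conclusion of the core theorems: a splitting of `ℝᵏ` over the square compatible with the
transports along the edges `r = 1` and `s = 1` -/
def QConcl (a b : ℤ) (k : ℕ) (g f : ℝ → En k) : Prop :=
  ∃ (N : ℕ) (Q : Fin N → R4 → En k),
    (∀ j, ContinuousOn (Q j) Sq) ∧
    (∀ j, ∀ x ∈ Sq, Q j x * Q j x = Q j x ∧ star (Q j x) = Q j x ∧
      (tr (Q j x) = 2 ∨ (tr (Q j x) = 1 ∧ j.val = 0))) ∧
    (∀ i j, i ≠ j → ∀ x ∈ Sq, Q i x * Q j x = 0) ∧ (∀ x ∈ Sq, ∑ j, Q j x = 1) ∧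
    (∀ j r s α β, (r, s, α, β) ∈ Sq → Q j (r, s, α + 2 * Real.pi, β) = Q j (r, s, α, β) ∧
      Q j (r, s, α, β + 2 * Real.pi) = Q j (r, s, α, β)) ∧
    (∀ j s α β, 0 ≤ s → s ≤ 1 → Q j (0, s, α, β) = Q j (0, s, 0, β) ∧
      Q j (1, s, 0, β + a * α) = g α * Q j (1, s, α, β) * star (g α)) ∧
    (∀ j r α β, 0 ≤ r → r ≤ 1 → Q j (r, 0, α, β) = Q j (r, 0, α, 0) ∧
      Q j (r, 1, α + b * β, 0) = f β * Q j (r, 1, α, β) * star (f β))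

/-- **C-QC0** (`b = 0`: from the core theorem `QS.G_CORE` of project QS).
Proof.  The relation at `α = 0` gives `v = f`; so `QS.Loops k (-a) g l f` holds (`hN = g`, `hS = l`,
`Ψ = f`, `β - (-a) α = β + a α`).  Take `κ, Φ, ϖ` from `CoreConcl` and
`Q j (r,s,α,β) = κ_r(α) Φ_{1-s}(β)⋆ ϖ_j Φ_{1-s}(β) κ_r(α)⋆`.  `r = 0`: `κ_0 = 1`.  `s = 0`:
`Φ_1(β)⋆ ϖ_j Φ_1(β)` does not depend on `β`.  `r = 1`: with `σ = 1 - s`,
`(g κ_1(α)) Φ_σ(β)⋆ = Φ_σ(β + aα)⋆ (l κ_1(α))`, and `l κ_1` commutes with `ϖ_j`, `κ_1(0) = 1`.  `s = 1`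
(`Φ_0 = f` commutes with `κ`): `f κ f⋆ ϖ f κ⋆ f⋆ = κ ϖ κ⋆`, and `f 0 = 1`. -/
def G_QC0 : Prop := ∀ (a : ℤ) (k : ℕ) (g f v l : ℝ → En k), LoopsG a 0 k g f v l →
  QConcl a 0 k g f

/-- **C-K1** (first consequences of `v(β + α) g(α) = l(α + 2β) f(β)`).

Proof.  Let `w(y) = v(y)⋆ v'(y)`, `n(x) = g'(x) g(x)⋆`, `u(β) = f(β)⋆ f'(β)` (skew, continuous, `w` is
`2π`-periodic).  For fixed `x, β`, `y = x + β`, the function `t ↦ v(y - t) g(x - 2t) f(β + t)⋆ =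
l(x + 2β)` is constant; its derivative at `0`, multiplied by `v(y)⋆` on the left and by `f(β) g(x)⋆` on
the right, is `-w(y) - 2 n(x) - g(x) u(β) g(x)⋆ = 0` (`(f⋆)' f = -f⋆ f'`).  For `x = 0`:
`u(β) = -w(β) - 2 n(0)`.  So for all `x, y`
`w(y) + 2 n(x) = g(x) (w(y - x) + 2 n(0)) g(x)⋆`.  Average over `y ∈ [0, 2π]`; with
`c = (1/2π) ∫_0^{2π} w` and `z = w - c`:
`c + 2 n(x) = g(x) (c + 2 n(0)) g(x)⋆` (A1) and `z(y) = g(x) z(y - x) g(x)⋆` (A2).  (A1) shows that `n`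
is differentiable (`g' = n g`, `(g⋆)' = -g⋆ n`): `2 n' = [n, 2n + c] = [n, c]`.  (A2) with `x = y` shows
that `z` is differentiable; differentiate (A2) in `x` (fixed `y`) and in `y` (fixed `x`):
`0 = [n(x), z(y)] - g(x) z'(y-x) g(x)⋆`, `z'(y) = g(x) z'(y-x) g(x)⋆`; so `z'(y) = [n(x), z(y)]` for all
`x, y`. -/
def G_K1 : Prop := ∀ (k : ℕ) (g f v l : ℝ → En k), LoopsG 1 2 k g f v l →
  ∃ (c : En k) (z n : ℝ → En k), star c = -c ∧ (∀ x, star (z x) = -z x) ∧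
    (∀ x, star (n x) = -n x) ∧ (∀ y, HasDerivAt v (v y * (c + z y)) y) ∧
    (∀ x, HasDerivAt g (n x * g x) x) ∧
    (∀ x, HasDerivAt n ((1 / 2 : ℝ) • (n x * c - c * n x)) x) ∧
    ∀ x y, HasDerivAt z (n x * z y - z y * n x) y

/-- **C-K2** (algebraic solution).

Proof.  `[p,q] = pq - qp`, `n0 = n 0`.  Let `𝒟` be the smallest linear subspace containing all `z y`
and closed under `q ↦ [c,q]`; it is closed under `star`.  `𝒞` = operators commuting with `𝒟`: a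
subalgebra closed under `star`.  Let `ℰ` be the span of the `n x - n 0`; it contains all `n' x` (limits
of difference quotients; subspaces are closed), and `[c, n x - n 0] = -2 (n' x - n' 0) ∈ ℰ`.
(i) `[c, 𝒞] ⊆ 𝒞` (Jacobi, `[c,𝒟] ⊆ 𝒟`).
(ii) `ℰ ⊆ 𝒞`: `[n x - n 0, z y] = 0` (both derivatives of `z` at `y` are equal); if `d` commutes with
`ℰ` then so does `[c,d]`: `[[c,d],e] = [c,[d,e]] - [d,[c,e]] = 0`.
(iii) `[n0, 𝒟] ⊆ 𝒟`: `[n0, z y] = z' y` is a limit of elements of `𝒟`; and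
`[n0,[c,d]] = [[n0,c],d] + [c,[n0,d]]` with `[n0,c] = 2 n' 0 ∈ ℰ ⊆ 𝒞`, so the first term is `0`.
Hence `[n0, 𝒞] ⊆ 𝒞`.
(iv) Let `cC, nC` be the orthogonal projections of `c, n0` to `𝒞` for `tr (star p * q)`,
`cD = c - cC`, `nD = n0 - nC` (all skew, cf. `QS.G_CE`).  `cD, nD` commute with `𝒞`: for `q, d ∈ 𝒞`,
`[cD,q] = [c,q] - [cC,q] ∈ 𝒞` and `tr (star d * [cD,q]) = tr ([q, star d] * cD) = 0`.
(v) `ζ := [nD,cD]` commutes with `𝒞` and `ζ = [n0,c] - [nC,cC] = 2 n' 0 - [nC,cC] ∈ 𝒞`;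
`tr (star ζ * ζ) = tr (star ζ * [nD,cD]) = tr ([star ζ, nD] * cD) = 0`, so `ζ = 0`.
(vi) `C = cC/2`, `B = -nD`, `A = nC + C`, `D = B - (cD + z 0)`: `A, C ∈ 𝒞`, and `B, D` commute with
`𝒞` (`z 0 ∈ 𝒟`).  `N x = n x - nD = nC + (n x - n0) ∈ 𝒞` satisfies
`N' = (1/2)([nD,cD] + [N,cC]) = [N,C]`, `N 0 = A - C`, so `exp(xC) N(x) exp(-xC)` is constant:
`N x = exp(-xC) A exp(xC) - C`.  `z' y = [n0, z y] = [nD, z y] = -[B, z y]`, so
`z y = exp(-yB) z(0) exp(yB)`; `cD` commutes with `B`; hence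
`c + z y = 2C + exp(-yB) (cD + z 0) exp(yB) = 2C + B - exp(-yB) D exp(yB)`. -/
def G_K2 : Prop := ∀ (k : ℕ) (c : En k) (z n : ℝ → En k), star c = -c →
  (∀ x, star (z x) = -z x) → (∀ x, star (n x) = -n x) →
  (∀ x, HasDerivAt n ((1 / 2 : ℝ) • (n x * c - c * n x)) x) →
  (∀ x y, HasDerivAt z (n x * z y - z y * n x) y) →
  ∃ A B C D : En k, star A = -A ∧ star B = -B ∧ star C = -C ∧ star D = -D ∧
    A * B = B * A ∧ A * D = D * A ∧ C * B = B * C ∧ C * D = D * C ∧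
    (∀ y : ℝ, c + z y = (2 : ℝ) • C + B - exp (-y • B) * D * exp (y • B)) ∧
    ∀ x : ℝ, n x = -(B + C) + exp (-x • C) * A * exp (x • C)

/-- **C-K3** (all solutions of the functional equation; uses `G_K1`, `G_K2`).

Proof.  `g' = n g` with `n x = -(B+C) + exp(-xC) A exp(xC)`; `exp(-x(B+C)) exp(xA)` solves the same
equation (`B` commutes with `A, C`, so `exp(-x(B+C)) A exp(x(B+C)) = exp(-xC) A exp(xC)`) with value `1` at
`0`; uniqueness (`QS.G_OD2`, or: the derivative of the product with the inverse is `0`).  Similarly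
`v' = v (2C + B - exp(-yB) D exp(yB))` gives `v y = exp(2yC) exp(-yD) exp(yB)` (`C` commutes with `B, D`).
The relation at `β = 0`: `l α = v α * g α`; at `α = -2β`: `f β = v(-β) g(-2β)`.  Simplify with the
commutation rules (`A, C` commute with `B, D`). -/
def G_K3 : Prop := ∀ (k : ℕ) (g f v l : ℝ → En k), LoopsG 1 2 k g f v l →
  ∃ A B C D : En k, star A = -A ∧ star B = -B ∧ star C = -C ∧ star D = -D ∧
    A * B = B * A ∧ A * D = D * A ∧ C * B = B * C ∧ C * D = D * C ∧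
    (∀ x : ℝ, g x = exp (-x • (B + C)) * exp (x • A)) ∧
    (∀ x : ℝ, v x = exp ((2 * x) • C) * exp (-x • D) * exp (x • B)) ∧
    (∀ x : ℝ, l x = exp (x • C) * exp (-x • D) * exp (x • A)) ∧
    ∀ x : ℝ, f x = exp (-(2 * x) • A) * exp (x • D) * exp (x • B)

/-- **C-K4** (the core theorem for `(a,b) = (1,2)`; uses `G_K3`, `QS.G_CW`, `QS.G_CLB`).

Proof.  Take `A, B, C, D` from `G_K3` and put `eA = exp(2πA)` etc.  `g(2π) = 1` and `l(2π) = 1` give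
`eA = eB eC`, `eD = eA eC`.  `G_CW` for `S = {B, D, eC}` and the pair `A, C` (both commute with `S`:
`eC = eB⁻¹ eA`): path `w₁` in `UC S`, `C' = w₁(1) C w₁(1)⋆` commutes with `A`.  `G_CW` for
`S = {A, C', eD}` and the pair `B, D` (`w₁` commutes with `B, D`, so `C'` does; `eD = eA eC`): path `w₂` in
`UC S`, `D' = w₂(1) D w₂(1)⋆` commutes with `B`.  `A, B, C', D'` commute pairwise; `π_j` from `G_CLB`.  Let
`P_j(r,s) = w₁(r)⋆ w₂(s)⋆ π_j w₂(s) w₁(r)` and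
`Q j (r,s,α,β) = exp(-βB) exp(-αA) P_j(r,s) exp(αA) exp(βB)`.
* Periodicity: `eA, eB, eC, eD` commute with all `P_j(r,s)`: `eC` commutes with `w₁`, and
`eC = w₁(1) eC w₁(1)⋆ = exp(2πC')` commutes with `w₂` and `π_j`; `eD` commutes with `w₂`, with `w₁` (`w₁`
commutes with `D`), and `eD = eA eC` commutes with `π_j`; `eA = eD eC⁻¹`, `eB = eA eC⁻¹`.
* `P_j(0,s)` commutes with `A` (`w₁(0) = 1`, `w₂` and `π_j` commute with `A`): `Q j (0,s,α,β)` does not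
depend on `α`.  `P_j(r,0)` commutes with `B` (`w₁`, `π_j` do): `Q j (r,0,α,β)` does not depend on `β`.
* `P_j(1,s)` commutes with `C` (conjugate by `w₁(1)`: `w₂(s)⋆ π_j w₂(s)` commutes with `C'`).  So
`g(α) Q(1,s,α,β) g(α)⋆ = exp(-α(B+C)) exp(-βB) P exp(βB) exp(α(B+C)) = exp(-(α+β)B) P exp((α+β)B)
= Q(1,s,0,β+α)`.
* `P_j(r,1)` commutes with `D` (`w₁` commutes with `D`, and `π_j` with `D'`).  So
`f(β) Q(r,1,α,β) f(β)⋆ = exp(-2βA) exp(βD) exp(-αA) P exp(αA) exp(-βD) exp(2βA)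
= exp(-(α+2β)A) P exp((α+2β)A) = Q(r,1,α+2β,0)`. -/
def G_K4 : Prop := ∀ (k : ℕ) (g f v l : ℝ → En k), LoopsG 1 2 k g f v l → QConcl 1 2 k g f

/-! ### Holonomy -/

/-- the data on the box: projection field `ε`, coefficients `p = B(∂r)`, `q = B(∂s)` -/
structure Dat2 (a b : ℤ) {n : ℕ} (ε p q : R4 → En n) : Prop where
  smε : ContDiff ℝ 1 ε
  smp : ContDiff ℝ 1 p
  smq : ContDiff ℝ 1 q
  idem : ∀ x, ε x * ε x = ε x
  symm : ∀ x, star (ε x) = ε x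
  skp : ∀ x, star (p x) = -p x
  skq : ∀ x, star (q x) = -q x
  dr : ∀ x, fderiv ℝ ε x (1, 0, 0, 0) = p x * ε x - ε x * p x
  ds : ∀ x, fderiv ℝ ε x (0, 1, 0, 0) = q x * ε x - ε x * q x
  flat : ∀ x, (fderiv ℝ q x (1, 0, 0, 0) - fderiv ℝ p x (0, 1, 0, 0) -
    (p x * q x - q x * p x)) * ε x = 0
  perα : ∀ r s α β, ε (r, s, α + 2 * Real.pi, β) = ε (r, s, α, β) ∧
    p (r, s, α + 2 * Real.pi, β) = p (r, s, α, β) ∧
    q (r, s, α + 2 * Real.pi, β) = q (r, s, α, β)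
  perβ : ∀ r s α β, ε (r, s, α, β + 2 * Real.pi) = ε (r, s, α, β) ∧
    p (r, s, α, β + 2 * Real.pi) = p (r, s, α, β) ∧
    q (r, s, α, β + 2 * Real.pi) = q (r, s, α, β)
  r0 : ∀ s α β, ε (0, s, α, β) = ε (0, s, 0, β) ∧ q (0, s, α, β) = q (0, s, 0, β)
  r1 : ∀ s α β, ε (Real.pi / 2, s, α, β) = ε (Real.pi / 2, s, 0, β + a * α) ∧
    q (Real.pi / 2, s, α, β) = q (Real.pi / 2, s, 0, β + a * α)
  s0 : ∀ r α β, ε (r, 0, α, β) = ε (r, 0, α, 0) ∧ p (r, 0, α, β) = p (r, 0, α, 0)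
  s1 : ∀ r α β, ε (r, Real.pi / 2, α, β) = ε (r, Real.pi / 2, α + b * β, 0) ∧
    p (r, Real.pi / 2, α, β) = p (r, Real.pi / 2, α + b * β, 0)

/-- the output of the ODE part: `R` transport along the `r`-lines from `r = 0`, `T` along the
`s`-lines from `s = 0` -/
structure Hol2 (a b : ℤ) {n : ℕ} (ε R T : R4 → En n) : Prop where
  cε : Continuous ε
  cR : Continuous R
  cT : Continuous T
  idem : ∀ x, ε x * ε x = ε x
  symm : ∀ x, star (ε x) = ε x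
  uR : ∀ x, R x ∈ unitary (En n)
  uT : ∀ x, T x ∈ unitary (En n)
  R0 : ∀ s α β, R (0, s, α, β) = 1
  T0 : ∀ r α β, T (r, 0, α, β) = 1
  iR : ∀ r s α β, ε (r, s, α, β) * R (r, s, α, β) = R (r, s, α, β) * ε (0, s, α, β)
  iT : ∀ r s α β, ε (r, s, α, β) * T (r, s, α, β) = T (r, s, α, β) * ε (r, 0, α, β)
  perα : ∀ r s α β, ε (r, s, α + 2 * Real.pi, β) = ε (r, s, α, β) ∧
    R (r, s, α + 2 * Real.pi, β) = R (r, s, α, β) ∧
    T (r, s, α + 2 * Real.pi, β) = T (r, s, α, β)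
  perβ : ∀ r s α β, ε (r, s, α, β + 2 * Real.pi) = ε (r, s, α, β) ∧
    R (r, s, α, β + 2 * Real.pi) = R (r, s, α, β) ∧
    T (r, s, α, β + 2 * Real.pi) = T (r, s, α, β)
  r0 : ∀ s α β, ε (0, s, α, β) = ε (0, s, 0, β) ∧ T (0, s, α, β) = T (0, s, 0, β)
  r1 : ∀ s α β, ε (Real.pi / 2, s, α, β) = ε (Real.pi / 2, s, 0, β + a * α) ∧
    T (Real.pi / 2, s, α, β) = T (Real.pi / 2, s, 0, β + a * α)
  s0 : ∀ r α β, ε (r, 0, α, β) = ε (r, 0, α, 0) ∧ R (r, 0, α, β) = R (r, 0, α, 0)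
  s1 : ∀ r α β, ε (r, Real.pi / 2, α, β) = ε (r, Real.pi / 2, α + b * β, 0) ∧
    R (r, Real.pi / 2, α, β) = R (r, Real.pi / 2, α + b * β, 0)
  smg : ContDiff ℝ 1 (fun α : ℝ => R (Real.pi / 2, 0, α, 0))
  sml : ContDiff ℝ 1 (fun α : ℝ => R (Real.pi / 2, Real.pi / 2, α, 0))
  smf : ContDiff ℝ 1 (fun β : ℝ => T (0, Real.pi / 2, 0, β))
  smv : ContDiff ℝ 1 (fun β : ℝ => T (Real.pi / 2, Real.pi / 2, 0, β))
  comm : ∀ r s α β, T (r, s, α, β) * R (r, 0, α, β) * ε (0, 0, 0, 0) =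
    R (r, s, α, β) * T (0, s, α, β) * ε (0, 0, 0, 0)

/-- **H-OD5** (`C¹` dependence on a real parameter; uses `QS.G_OD2`, `QS.G_OD3`, `QS.G_OD4`).
Proof.  `QS.G_OD4` gives the derivative `D l t` of `l ↦ U l t`, with `D l 0 = 0` and
`∂_t D = c D + c' U`, `c' = fderiv ℝ c (·) (1,0)`.  By variation of constants
`D l t = U l t * ∫ τ in 0..t, star (U l τ) * c' (l,τ) * U l τ` (both sides solve the same equation:
the derivative of `star (U l t) * D l t` is `star U c' U`), which is continuous in `l` (`QS.G_OD3`,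
continuity of parameter integrals).  `contDiff_one_iff_deriv`. -/
def G_OD5 : Prop := ∀ (n : ℕ) (c : ℝ × ℝ → En n), ContDiff ℝ 1 c → (∀ z, star (c z) = -c z) →
  ∀ U : ℝ → ℝ → En n, (∀ l, U l 0 = 1) → (∀ l t, HasDerivAt (U l) (c (l, t) * U l t) t) →
  ∀ t, ContDiff ℝ 1 (fun l => U l t)

/-- **H-COM2** (the two transports commute; port of `Pool/Agent/Helper50/QS/COM.lean`; uses
`QS.G_OD2`, `QS.G_OD4`).  Proof as for `QS.G_COM` (only the fields `smε ... flat` are used there). -/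
def G_COM2 : Prop := ∀ (a b : ℤ) (n : ℕ) (ε p q R T : R4 → En n), Dat2 a b ε p q →
  IsTrans p q R T → ∀ r s α β, T (r, s, α, β) * R (r, 0, α, β) * ε (0, 0, α, β) =
    R (r, s, α, β) * T (0, s, α, β) * ε (0, 0, α, β)

/-- **H-HOL2** (port of `Pool/Agent/Helper23/QS/HOL.lean`; uses `QS.G_OD1` - `QS.G_OD4`, `G_OD5`,
`G_COM2`).  Proof as for `QS.G_HOL`: the identities `perα, ..., s1` by uniqueness of solutions;
`smg, sml, smf, smv` from `G_OD5` for the coefficient functions `(l,t) ↦ p (t, 0, l, 0)`,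
`p (t, π/2, l, 0)`, `q (0, t, 0, l)`, `q (π/2, t, 0, l)`; `ε (0,0,α,β) = ε (0,0,0,β) = ε (0,0,0,0)`
(`r0`, `s0`). -/
def G_HOL2 : Prop := ∀ (a b : ℤ) (n : ℕ) (ε p q : R4 → En n), Dat2 a b ε p q →
  ∃ R T : R4 → En n, Hol2 a b ε R T

/-- the frame at the corner `(π/2, 0)` -/
noncomputable def J10 {n k : ℕ} (J : V k →L[ℝ] V n) (R : R4 → En n) : V k →L[ℝ] V n :=
  (R (Real.pi / 2, 0, 0, 0)).comp J

/-- the frame at the corner `(0, π/2)` -/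
noncomputable def J01 {n k : ℕ} (J : V k →L[ℝ] V n) (T : R4 → En n) : V k →L[ℝ] V n :=
  (T (0, Real.pi / 2, 0, 0)).comp J

/-- the frame at the corner `(π/2, π/2)` -/
noncomputable def J11 {n k : ℕ} (J : V k →L[ℝ] V n) (R T : R4 → En n) : V k →L[ℝ] V n :=
  (T (Real.pi / 2, Real.pi / 2, 0, 0)).comp (J10 J R)

/-- transport along the edge `s = 0` -/
noncomputable def lg {n k : ℕ} (J : V k →L[ℝ] V n) (R : R4 → En n) (α : ℝ) : En k :=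
  compr J (J10 J R) (R (Real.pi / 2, 0, α, 0))

/-- transport along the edge `r = 0` -/
noncomputable def lf {n k : ℕ} (J : V k →L[ℝ] V n) (T : R4 → En n) (β : ℝ) : En k :=
  compr J (J01 J T) (T (0, Real.pi / 2, 0, β))

/-- transport along the edge `r = π/2` -/
noncomputable def lv {n k : ℕ} (J : V k →L[ℝ] V n) (R T : R4 → En n) (β : ℝ) : En k :=
  compr (J10 J R) (J11 J R T) (T (Real.pi / 2, Real.pi / 2, 0, β))

/-- transport along the edge `s = π/2` -/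
noncomputable def ll {n k : ℕ} (J : V k →L[ℝ] V n) (R T : R4 → En n) (α : ℝ) : En k :=
  compr (J01 J T) (J11 J R T) (R (Real.pi / 2, Real.pi / 2, α, 0))

/-- **H-LP2** (the transports along the edges satisfy the functional equation; cf.
`Pool/Agent/Helper78/QS/LP.lean`).

Proof.  `compr J J' A = J'⋆ A J`.  Notation `ε₀ = ε(0,0,0,0) = J J⋆`; `J10 J10⋆ = R ε₀ R⋆ =
ε(π/2,0,0,0)` (`iR`), `J01 J01⋆ = ε(0,π/2,0,0)` (`iT`), `J11 J11⋆ = ε(π/2,π/2,0,0)` (`iT`); all are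
isometries (`J⋆ J = 1`).  `ε` is constant on each corner: at `(0,0)`: `r0, s0`; at `(π/2,0)`:
`ε(π/2,0,α,β) = ε(π/2,0,α,0) = ε(π/2,0,0,aα) = ε(π/2,0,0,0)` (`s0, r1, s0`); at `(0,π/2)`: `s1, r0`; at
`(π/2,π/2)`: with `F(x) = ε(π/2,π/2,x,0)`: `ε(π/2,π/2,α,β) = F(α + bβ)` (`s1`) and
`= ε(π/2,π/2,0,β + aα) = F(bβ + abα)` (`r1, s1`); if `b = 0` then `F(α) = F(0)`; if `(a,b) = (1,2)`,
`F(α + 2β) = F(2α + 2β)` for all `α, β`, so `F(x) = F(x + α)` for all `x, α`.  Hence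
(a) `R(π/2,0,α,0) J = J10 g(α)`, (b) `T(0,π/2,0,β) J = J01 f(β)`,
(c) `T(π/2,π/2,0,β) J10 = J11 v(β)`, (d) `R(π/2,π/2,α,0) J01 = J11 l(α)` (the left sides have their
range in that of the frame on the right).  Orthogonality of `g, f, v, l`: e.g. `g⋆ g = (J10 g)⋆ (J10 g) =
J⋆ R⋆ R J = 1`.  Values at `0`: `g(0) = J10⋆ J10 = 1`, `f(0) = 1`, `v(0) = 1`, and
`l(0) = J11⋆ R(π/2,π/2,0,0) T(0,π/2,0,0) J = J11⋆ T(π/2,π/2,0,0) R(π/2,0,0,0) J = J11⋆ J11 = 1`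
(`comm`, `J = ε₀ J`).  Smoothness, periodicity: `Hol2`.  Relation: apply `comm` at `(π/2,π/2,α,β)` to
`J = ε₀ J`: `T(π/2,π/2,α,β) R(π/2,0,α,β) J = T(π/2,π/2,0,β+aα) R(π/2,0,α,0) J = J11 v(β+aα) g(α)`
(`r1, s0`, (a), (c)) and `R(π/2,π/2,α,β) T(0,π/2,α,β) J = R(π/2,π/2,α+bβ,0) T(0,π/2,0,β) J =
J11 l(α+bβ) f(β)` (`s1, r0`, (b), (d)); `J11` is injective. -/
def G_LP2 : Prop := ∀ (a b : ℤ) (n k : ℕ) (ε R T : R4 → En n) (J : V k →L[ℝ] V n),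
  b = 0 ∨ (a = 1 ∧ b = 2) → Hol2 a b ε R T → IsIso (ε (0, 0, 0, 0)) J →
  LoopsG a b k (lg J R) (lf J T) (lv J R T) (ll J R T) ∧
  (∀ α, (R (Real.pi / 2, 0, α, 0)).comp J = (J10 J R).comp (lg J R α)) ∧
  ∀ β, (T (0, Real.pi / 2, 0, β)).comp J = (J01 J T).comp (lf J T β)

/-! ### Assembly -/

/-- the box -/
def Box2 : Set R4 := {x | 0 ≤ x.1 ∧ x.1 ≤ Real.pi / 2 ∧ 0 ≤ x.2.1 ∧ x.2.1 ≤ Real.pi / 2}

/-- a function on the box is compatible with the identifications of `M_{a,b}` -/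
structure Compat2 (a b : ℤ) {Y : Type} (f : R4 → Y) : Prop where
  perα : ∀ r s α β, (r, s, α, β) ∈ Box2 → f (r, s, α + 2 * Real.pi, β) = f (r, s, α, β)
  perβ : ∀ r s α β, (r, s, α, β) ∈ Box2 → f (r, s, α, β + 2 * Real.pi) = f (r, s, α, β)
  r0 : ∀ s α β, 0 ≤ s → s ≤ Real.pi / 2 → f (0, s, α, β) = f (0, s, 0, β)
  r1 : ∀ s α β, 0 ≤ s → s ≤ Real.pi / 2 →
    f (Real.pi / 2, s, α, β) = f (Real.pi / 2, s, 0, β + a * α)
  s0 : ∀ r α β, 0 ≤ r → r ≤ Real.pi / 2 → f (r, 0, α, β) = f (r, 0, α, 0)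
  s1 : ∀ r α β, 0 ≤ r → r ≤ Real.pi / 2 →
    f (r, Real.pi / 2, α, β) = f (r, Real.pi / 2, α + b * β, 0)

/-- a splitting of `ε` over the box compatible with the identifications -/
def BoxSplit2 (a b : ℤ) {n : ℕ} (ε : R4 → En n) : Prop :=
  ∃ (N : ℕ) (f : Fin N → R4 → En n),
    (∀ j, ContinuousOn (f j) Box2 ∧ Compat2 a b (f j)) ∧
    (∀ j, ∀ x ∈ Box2, f j x * f j x = f j x ∧ star (f j x) = f j x ∧
      (tr (f j x) = 2 ∨ (tr (f j x) = 1 ∧ j.val = 0))) ∧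
    (∀ i j, i ≠ j → ∀ x ∈ Box2, f i x * f j x = 0) ∧
    ∀ x ∈ Box2, ∑ j, f j x = ε x

/-- **A-EJ2** (the splitting on the box; uses `G_LP2`; cf. `Pool/Agent/Helper78/QS/EJ.lean`).

Proof.  `M(x) = T(r,s,α,β) R(r,0,α,β)`, `f_j(x) = M(x) J Q_j(2r/π, 2s/π, α, β) J⋆ M(x)⋆`.  Projections,
traces, `∑ f_j = M ε₀ M⋆ = ε(x)` (`iT, iR`, `ε(0,0,α,β) = ε₀`), continuity and periodicity as in
`QS.G_EJ`.  `r = 0`: `M = T(0,s,0,β)`, and `Q_j(0,s,·,β)` is constant.  `s = 0`: `M = R(r,0,α,0)`, and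
`Q_j(r,0,α,·)` is constant.  `r = π/2`, `β' = β + aα`: `M(π/2,s,α,β) J = T(π/2,s,0,β') R(π/2,0,α,0) J =
T(π/2,s,0,β') J10 g(α)`, `M(π/2,s,0,β') J = T(π/2,s,0,β') J10`, and
`g(α) Q_j(1,s',α,β) g(α)⋆ = Q_j(1,s',0,β')`.  `s = π/2`, `α' = α + bβ`: by `comm`
`M(r,π/2,α,β) J = R(r,π/2,α,β) T(0,π/2,α,β) J = R(r,π/2,α',0) T(0,π/2,0,β) J =
R(r,π/2,α',0) J01 f(β)` and `M(r,π/2,α',0) J = R(r,π/2,α',0) J01`, and
`f(β) Q_j(r',1,α,β) f(β)⋆ = Q_j(r',1,α',0)`. -/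
def G_EJ2 : Prop := ∀ (a b : ℤ) (n k : ℕ) (ε R T : R4 → En n) (J : V k →L[ℝ] V n),
  b = 0 ∨ (a = 1 ∧ b = 2) → Hol2 a b ε R T → IsIso (ε (0, 0, 0, 0)) J →
  QConcl a b k (lg J R) (lf J T) → BoxSplit2 a b ε

/-- **A-E1** (every point of `X` is a rotated polar point; cf. `Pool/Agent/Helper57/QS/D1.lean`).
Proof.  `P = ((x₁,x₂),(y₁,y₂))`, `r = arccos ‖x₁‖`, `s = arccos ‖y₁‖`; `u` = phase of `x₁` (`1` if
`x₁ = 0`), `u'` = phase of `y₁`.  Choose `ζ, ω` with `ζ ω^b = u`, `ζ^a ω = u'`: for `b = 0` `ζ = u`,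
`ω = u' ζ^{-a}`; for `(1,2)`: `ω = u/u'`, `ζ = u'²/u`.  Then `x₂ = ζ e^{iα} sin r`,
`y₂ = ω e^{iβ} sin s` for some `α, β ∈ [0,2π]`; and `ζ = e^{iσ}`, `ω = e^{iτ}`, `σ, τ ∈ [0,2π]`. -/
def G_E1 : Prop := ∀ (a b : ℤ), b = 0 ∨ (a = 1 ∧ b = 2) → ∀ P ∈ (Mab a b).X,
  ∃ σ τ : ℝ, ∃ x ∈ Box2, 0 ≤ σ ∧ σ ≤ 2 * Real.pi ∧ 0 ≤ τ ∧ τ ≤ 2 * Real.pi ∧
    0 ≤ x.2.2.1 ∧ x.2.2.1 ≤ 2 * Real.pi ∧ 0 ≤ x.2.2.2 ∧ x.2.2.2 ≤ 2 * Real.pi ∧
    P = act2 a b (Complex.exp (σ * Complex.I)) (Complex.exp (τ * Complex.I)) (pol2 x)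

/-- **A-E2** (the identifications are the only ones; cf. `Pool/Agent/Helper8/QS/D2.lean`).
Proof.  `x = (r,s,α,β)`, `x' = (r',s',α',β')`; moduli: `r = r'`, `s = s'`.
Case `cos r ≠ 0`, `cos s ≠ 0`: `ζ ω^b = 1`, `ζ^a ω = 1`, so `ζ = ω = 1` (both cases of `(a,b)`); then
`e^{iα'} = e^{iα}` if `sin r ≠ 0` (`perα`), otherwise `r = 0` and `r0`; the same for `β`.
Case `r = π/2`, `cos s ≠ 0`: `ζ^a ω = 1`, `ζ = e^{i(α'-α)}`, and if `sin s ≠ 0` `e^{iβ'} = ω e^{iβ}`, so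
`β' + aα' ≡ β + aα` mod `2π`; `r1`, `perβ`; if `s = 0` use `r1` and `s0`.
Case `cos r ≠ 0`, `s = π/2`: the same with `ζ ω^b = 1`, `ω = e^{i(β'-β)}`: `α' + bβ' ≡ α + bβ` if
`sin r ≠ 0` (`s1`, `perα`); `r = 0`: `s1`, `r0`.
Case `r = s = π/2`: `f` is constant at this corner: `F(x) = f(π/2,π/2,x,0)`, as in `G_LP2`. -/
def G_E2 : Prop := ∀ (a b : ℤ), b = 0 ∨ (a = 1 ∧ b = 2) → ∀ (Y : Type) (f : R4 → Y),
  Compat2 a b f → ∀ x ∈ Box2, ∀ x' ∈ Box2, ∀ ζ ω : ℂ, ‖ζ‖ = 1 → ‖ω‖ = 1 →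
    pol2 x' = act2 a b ζ ω (pol2 x) → f x' = f x

/-- **A-DES2** (descent to `X` and to the splitting of the bundle; uses `G_E1`, `G_E2`, `QS.G_ISO`; port
of `Pool/Agent/Helper57/QS/DES.lean`, goals `QS.G_DES` and `QS.G_FIN`).
Proof as there: for `P ∈ X` choose `σ, τ, x` from `G_E1`, `F_j P = f_j x`; invariance and
well-definedness by `G_E2` (`act2` is multiplicative); continuity because
`(σ,τ,x) ↦ act2 a b e^{iσ} e^{iτ} (pol2 x)` is a continuous map of a compact set onto `X`; ranks from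
traces by `QS.G_ISO`. -/
def G_DES2 : Prop := ∀ (a b : ℤ), b = 0 ∨ (a = 1 ∧ b = 2) → ∀ (n : ℕ) (e : W2 → En n),
  (∀ g ∈ (Mab a b).Γ, ∀ P ∈ (Mab a b).X, e (g P) = e P) →
  BoxSplit2 a b (fun x => e (pol2 x)) → Splits (Mab a b) e

/-- **A-DAT2** (the data of the ODE part; uses `G_PL2`; port of `Pool/Agent/Helper14/QS/DAT.lean`).
Proof.  As for `QS.G_DAT`: smoothness, skewness, `dr`, `ds` (chain rule and `IsBundle.par`), `flat` on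
the dense set `Reg2` and by continuity everywhere; `perα, perβ` from the formulas of `G_PL2`; `r0`: at
`r = 0` `pol2` and `Dpol2 ∂s` do not depend on `α`; `s0`: the same; `r1`:
`pol2 (π/2,s,α,β) = act2 a b e^{iα} e^{-iaα} (pol2 (π/2,s,0,β+aα))` and
`Dpol2 ∂s = (0, (-sin s, e^{iβ} cos s))` transforms in the same way; `s1`:
`pol2 (r,π/2,α,β) = act2 a b e^{-ibβ} e^{iβ} (pol2 (r,π/2,α+bβ,0))`, the same for `Dpol2 ∂r`;
`IsBundle.inv, inv_B`. -/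
def G_DAT2 : Prop := ∀ (a b : ℤ), b = 0 ∨ (a = 1 ∧ b = 2) → ∀ (k n : ℕ) (e : W2 → En n)
  (B : W2 → W2 →L[ℝ] En n), IsBundle (Mab a b) k e B →
  (∀ x ∈ Reg2, FG B pol2 x * e (pol2 x) = 0) →
  Dat2 a b (fun x => e (pol2 x)) (bG B pol2) (cG B pol2)

end Pool.Agent.Helper61.QT
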