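import Pool.Agent.Helper61.QT.Main

/-!
# Project QT+ (MP_0ebdb3_gt): all torus-invariant souls (no polarity)

The metric `gM` of `M_{a,b}` is invariant under the rotations of the four coordinates (`IsRotG`).
`z = (r, s)`; `rp z` is the real point `((cos r, sin r), (cos s, sin s)) = pol2 (r,s,0,0)`, `er z`, `es z`
are the vectors `∂r`, `∂s` there, `im4 w = i w` for `w ∈ ℝ⁴` are the imaginary vectors.  Notation below:
`P₁ = cos r, P₂ = sin r, P₃ = cos s, P₄ = sin s`, `O₁ = (P₁, P₂, a P₃, 0)`, `O₂ = (b P₁, 0, P₃, P₄)`, so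
that `im4 O₁ = o1 a (rp z)`, `im4 O₂ = o2 b (rp z)`.  All real vectors `er, es` and all `im4 w` are
tangent to `X` at `rp z`.
-/

set_option autoImplicit false

open Set

namespace Pool.Agent.Helper61.QT

open Pool.Agent.Helper61 Pool.Agent.Helper61.QG
open Pool.Agent.Helper61.QS (V En rk R4 IsCurv SecNN Gam dd)
open Pool.Agent.Helper61.QM (Model W2 Mab pol2 act2 o1 o2 rot IsRe IsIm)

/-- the metric is invariant under the torus of rotations of the four coordinates -/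
def IsRotG (gM : W2 → W2 →L[ℝ] W2 →L[ℝ] ℝ) : Prop :=
  ∀ c : W2, ‖c.1.1‖ = 1 → ‖c.1.2‖ = 1 → ‖c.2.1‖ = 1 → ‖c.2.2‖ = 1 →
    ∀ P ∈ (Mab 0 0).X, ∀ u ∈ (Mab 0 0).T P, ∀ u' ∈ (Mab 0 0).T P,
      gM (rot c P) (rot c u) (rot c u') = gM P u u'

/-- the real point with parameters `z = (r, s)` -/
noncomputable def rp (z : ℝ × ℝ) : W2 :=
  (((Real.cos z.1 : ℂ), (Real.sin z.1 : ℂ)), ((Real.cos z.2 : ℂ), (Real.sin z.2 : ℂ)))

/-- `∂r` at the real point -/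
noncomputable def er (z : ℝ × ℝ) : W2 :=
  ((-(Real.sin z.1 : ℂ), (Real.cos z.1 : ℂ)), ((0 : ℂ), (0 : ℂ)))

/-- `∂s` at the real point -/
noncomputable def es (z : ℝ × ℝ) : W2 :=
  (((0 : ℂ), (0 : ℂ)), (-(Real.sin z.2 : ℂ), (Real.cos z.2 : ℂ)))

/-- the imaginary vector `i w` -/
noncomputable def im4 (w : R4) : W2 :=
  ((Complex.I * w.1, Complex.I * w.2.1), (Complex.I * w.2.2.1, Complex.I * w.2.2.2))

/-- `w` is orthogonal (in `ℝ⁴`) to `O₁` and `O₂` -/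
def Gauge (a b : ℤ) (z : ℝ × ℝ) (w : R4) : Prop :=
  Real.cos z.1 * w.1 + Real.sin z.1 * w.2.1 + a * Real.cos z.2 * w.2.2.1 = 0 ∧
    b * Real.cos z.1 * w.1 + Real.cos z.2 * w.2.2.1 + Real.sin z.2 * w.2.2.2 = 0

/-- **P-VL** (imaginary parts of the horizontal lifts).

Proof.  For `z` let `Ñ z : R4 →L[ℝ] (R4 →L[ℝ] ℝ)`,
`Ñ(v,w) = gM (rp z) (im4 v) (im4 w) + ⟨O₁,v⟩⟨O₁,w⟩ + ⟨O₂,v⟩⟨O₂,w⟩`; it is `C²` in `z` (`gM` is `C³`).
Positive definite: let `v ≠ 0`; if `im4 v ∉ O(rp z)`, the first term is `> 0` (`IsBase.pos`); otherwise it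
is `0` (`horiz`), `v = σ O₁ + τ O₂`, and `⟨O₁,v⟩ = ⟨O₂,v⟩ = 0` would give `|v|² = 0`.  So `Ñ z` is
injective, hence an isomorphism (`R4` and its dual have equal dimension); put
`vr z = -(Ñ z)⁻¹ (w ↦ gM (rp z) (er z) (im4 w))` (`ContinuousLinearMap.inverse`,
`contDiffAt_map_inverse`).  For `w = O_k`: `gM (rp z) (im4 v) (im4 O_k) = 0` and
`gM (rp z) (er z) (im4 O_k) = 0` (`horiz`, `symm`), so `∑_j ⟨O_j,v⟩⟨O_j,O_k⟩ = 0` for `k = 1, 2`;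
multiply by `⟨O_k,v⟩` and add: `∑_j ⟨O_j,v⟩ O_j = 0`; product with `v`: `⟨O_1,v⟩ = ⟨O_2,v⟩ = 0`, the
gauge condition.  Then `Ñ(v,w) = gM (rp z) (im4 v) (im4 w)`.  The same for `vs`. -/
def G_VL : Prop := ∀ (a b : ℤ) (gM : W2 → W2 →L[ℝ] W2 →L[ℝ] ℝ), IsBase (Mab a b) gM →
  ∃ vr vs : ℝ × ℝ → R4, ContDiff ℝ 2 vr ∧ ContDiff ℝ 2 vs ∧
    (∀ z, Gauge a b z (vr z) ∧ Gauge a b z (vs z)) ∧
    (∀ z w, gM (rp z) (er z + im4 (vr z)) (im4 w) = 0) ∧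
    ∀ z w, gM (rp z) (es z + im4 (vs z)) (im4 w) = 0

/-- **P-WAL** (the lifts at the walls `P_m = 0`).

Proof.  Let `P_m = 0`, `c` the rotation with `-1` in coordinate `m` (and `1` elsewhere): `rot c` fixes
`rp z`, and `rot c (im4 w) = im4 w'`, `w'` = `w` with `w_m` replaced by `-w_m`.
(1) `m = 2` (`sin r = 0`), field `er`: `er = ((0, cos r), 0)`, `cos r = ±1`.  `rot c er = -er`, so
`gM er (im4 w) = 0` if `w_2 = 0`.  For `w = e_2` use the rotation by `i` in coordinate `2`, which maps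
`er` to `cos r • im4 e_2` and `im4 e_2` to `-cos r • er`: `gM er (im4 e_2) = -gM (im4 e_2) er`, so `0` by
symmetry.  Hence `gM (im4 v) (im4 w) = 0` for all `w`, in particular for `w = v`; by `pos`
`im4 v ∈ O(rp z)`, `v = σ O₁ + τ O₂`, and the gauge condition gives `|v|² = 0`.
(2) `m = 2`, field `es`: `rot c es = es`, so `gM es (im4 e_2) = 0`; and `gM (im4 v') (im4 e_2) = 0` if
`v'_2 = 0`; so `0 = gM (es + im4 v) (im4 e_2) = v_2 gM (im4 e_2) (im4 e_2)`, and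
`im4 e_2 ∉ O(rp z)` (the second coordinate of all vectors of `O(rp z)` is a multiple of `P_2 = 0`, that of
`im4 e_2` is `i`), so `v_2 = 0`.
(3) The other three walls in the same way (`m = 1`: `er = ((-sin r, 0), 0)`; `m = 3, 4` with `es` and
`er` exchanged). -/
def G_WAL : Prop := ∀ (a b : ℤ) (gM : W2 → W2 →L[ℝ] W2 →L[ℝ] ℝ), IsBase (Mab a b) gM → IsRotG gM →
  ∀ (z : ℝ × ℝ) (v : R4), Gauge a b z v →
    ((∀ w, gM (rp z) (er z + im4 v) (im4 w) = 0) ∨ (∀ w, gM (rp z) (es z + im4 v) (im4 w) = 0)) →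
    (Real.cos z.1 = 0 → v.1 = 0) ∧ (Real.sin z.1 = 0 → v.2.1 = 0) ∧
    (Real.cos z.2 = 0 → v.2.2.1 = 0) ∧ (Real.sin z.2 = 0 → v.2.2.2 = 0)

/-- **P-DIV** (division by `sin` and `cos`).

Proof.  First statement.  `g z = f z / sin r` if `sin r ≠ 0` and `∂_r f (z) / cos r` otherwise.  It is
`C¹` near points with `sin r ≠ 0`.  Near `(kπ, s)`: for `|r - kπ| < π`,
`f (r,s) = (r - kπ) ∫_0^1 f_r (kπ + t (r - kπ), s) dt` and
`sin r = (-1)^k (r - kπ) ∫_0^1 cos (t (r - kπ)) dt`; so `g = (-1)^k (∫ f_r ...) / (∫ cos ...)`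
there, the denominator is positive for `|r - kπ| < π` (`(r-kπ)` times it is `sin (r - kπ)`, value `1` at
`r = kπ`), and parameter integrals over `[0,1]` of `C¹` functions are `C¹`
(`intervalIntegral.hasFDerivAt_integral_of_dominated_of_fderiv_le`, continuity of the derivative by
`intervalIntegral.continuous_parametric_intervalIntegral_of_continuous`).  The other statements follow by
the substitutions `r ↦ r + π/2`, `(r,s) ↦ (s,r)`. -/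
def G_DIV : Prop := ∀ f : ℝ × ℝ → ℝ, ContDiff ℝ 2 f →
  ((∀ z, Real.sin z.1 = 0 → f z = 0) → ∃ g, ContDiff ℝ 1 g ∧ ∀ z, f z = Real.sin z.1 * g z) ∧
  ((∀ z, Real.cos z.1 = 0 → f z = 0) → ∃ g, ContDiff ℝ 1 g ∧ ∀ z, f z = Real.cos z.1 * g z) ∧
  ((∀ z, Real.sin z.2 = 0 → f z = 0) → ∃ g, ContDiff ℝ 1 g ∧ ∀ z, f z = Real.sin z.2 * g z) ∧
  ((∀ z, Real.cos z.2 = 0 → f z = 0) → ∃ g, ContDiff ℝ 1 g ∧ ∀ z, f z = Real.cos z.2 * g z)

/-- the horizontal lift of `∂r` in polar coordinates -/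
def hr (Ar : ℝ × ℝ → ℝ × ℝ) (x : R4) : R4 := (1, 0, -(Ar (x.1, x.2.1)).1, -(Ar (x.1, x.2.1)).2)

/-- the horizontal lift of `∂s` in polar coordinates -/
def hs (As : ℝ × ℝ → ℝ × ℝ) (x : R4) : R4 := (0, 1, -(As (x.1, x.2.1)).1, -(As (x.1, x.2.1)).2)

/-- the data of a torus-invariant metric: the metric `E dr² + 2 F dr ds + G ds²` of the quotient and the
connection forms `Ar dr + As ds` -/
structure TorDat (gM : W2 → W2 →L[ℝ] W2 →L[ℝ] ℝ) (E F G : ℝ × ℝ → ℝ) (Ar As : ℝ × ℝ → ℝ × ℝ) :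
    Prop where
  smE : ContDiff ℝ 2 E
  smF : ContDiff ℝ 2 F
  smG : ContDiff ℝ 2 G
  smAr : ContDiff ℝ 1 Ar
  smAs : ContDiff ℝ 1 As
  perr : ∀ r s, E (r + Real.pi, s) = E (r, s) ∧ F (r + Real.pi, s) = F (r, s) ∧
    G (r + Real.pi, s) = G (r, s)
  pers : ∀ r s, E (r, s + Real.pi) = E (r, s) ∧ F (r, s + Real.pi) = F (r, s) ∧
    G (r, s + Real.pi) = G (r, s)
  pos : ∀ z, 0 < E z ∧ 0 < E z * G z - F z ^ 2
  orr : ∀ (x : R4) (c d : ℝ), gB gM pol2 x (hr Ar x) (0, 0, c, d) = 0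
  ors : ∀ (x : R4) (c d : ℝ), gB gM pol2 x (hs As x) (0, 0, c, d) = 0
  eE : ∀ x : R4, gB gM pol2 x (hr Ar x) (hr Ar x) = E (x.1, x.2.1)
  eF : ∀ x : R4, gB gM pol2 x (hr Ar x) (hs As x) = F (x.1, x.2.1)
  eG : ∀ x : R4, gB gM pol2 x (hs As x) (hs As x) = G (x.1, x.2.1)

/-- **P-TD** (the data exist; uses `G_VL`, `G_WAL`, `G_DIV`, `G_PL2`).

Proof.  `vr, vs` from `G_VL`; by `G_WAL`, `G_DIV` (applied to the four components, which vanish where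
`P_m` does) `v_m = P_m θ_m` with `θ_m ∈ C¹`.  With `K_m = im4 (P_m e_m)`, `im4 v = ∑ θ_m K_m`,
`o1 a (rp z) = K₁ + K₂ + a K₃`, `o2 b (rp z) = b K₁ + K₃ + K₄`, and, `δ = 1 - ab`, `δ² = 1`:
`K₁ = δ (o1 - a o2 - K₂ + a K₄)`, `K₃ = δ (o2 - b o1 + b K₂ - K₄)`.  So modulo `O(rp z)` (on which `gM`
vanishes, `horiz`) `im4 v` is `(θ₂ - δ θ₁ + δ b θ₃) K₂ + (θ₄ + δ a θ₁ - δ θ₃) K₄`; put
`Ar = -(θ₂ - δ θ₁ + δ b θ₃, θ₄ + δ a θ₁ - δ θ₃)` for the `θ` of `vr`, the same for `As`.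
`E z = gM (rp z) (er + im4 vr) (er + im4 vr)`, `F`, `G` similarly: `C²`.
Polar coordinates: for `x = (r,s,α,β)` and `c = ((1, e^{iα}), (1, e^{iβ}))`: `pol2 x = rot c (rp z)`,
`Dpol2 x (1,0,c₁,c₂) = rot c (er z + im4 (0, c₁ sin r, 0, c₂ sin s))`, similarly `(0,1,c₁,c₂)` and
`(0,0,c₁,c₂)` (`G_PL2`, second part); so `orr, ors, eE, eF, eG` by `IsRotG`.
Periodicity: `rp (r+π,s) = rot c (rp z)`, `c = ((-1,-1),(1,1))`, `er, es` in the same way; if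
`er' + im4 v'` (at `rp (r+π,s)`) is orthogonal to all `im4 w`, so is `er + im4 ṽ` at `rp z`,
`im4 v' = rot c (im4 ṽ)`; two vectors `U, U'` in `er + im4 (..)` orthogonal to all `im4 w` satisfy
`gM U U = gM U' U'` (the difference is some `im4 d`); similarly for `F`, `G`, and for `s + π`.
Positivity: for real `(u,v) ≠ 0`, `U = u (er + im4 vr) + v (es + im4 vs)` is tangent and not in
`O(rp z)`, whose elements are imaginary (`u er + v es ≠ 0`), so `E u² + 2 F u v + G v² > 0`: take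
`(1,0)` and `(-F, E)`. -/
def G_TD : Prop := ∀ (a b : ℤ) (gM : W2 → W2 →L[ℝ] W2 →L[ℝ] ℝ), b = 0 ∨ (a = 1 ∧ b = 2) →
  IsBase (Mab a b) gM → IsRotG gM → ∃ E F G Ar As, TorDat gM E F G Ar As

/-- the curvature of the torus bundle -/
noncomputable def Om (Ar As : ℝ × ℝ → ℝ × ℝ) (z : ℝ × ℝ) : ℝ × ℝ :=
  fderiv ℝ As z (1, 0) - fderiv ℝ Ar z (0, 1)

/-- **P-TK** (O'Neill's formula for the torus bundle; uses `G_PL2`, `G_GBX`, `QS.G_G2`).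

Proof.  `h = gB gM pol2` is `C²`, symmetric, positive definite on `Reg2` (`G_GBX`), and
`h (r,s,α,β) = h (r,s,0,0)` by `IsRotG` (as in `G_T1`, `Pool/Agent/Helper93/QT/T1.lean`).
Near `z₀ = (x.1, x.2.1)`, `x ∈ Reg2`, `Ar` and `As` are `C²`: `Ar z` is the unique solution of the linear
system `h (z,0,0) (1,0,-A₁,-A₂) (0,0,c,d) = 0`, so it is given by Cramer's rule by the coefficients of
`h`, the determinant `h₃₃ h₄₄ - h₃₄²` being positive on `Reg2`.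
Let `F1 = F2 = ℝ × ℝ`, `q z u u' = E u₁u₁' + F (u₁u₂' + u₂u₁') + G u₂u₂'`,
`A(z) u = u₁ Ar z + u₂ As z`, `γ (z,w) y y' = h (z,0,0) (0,0,y) (0,0,y')`,
`N (z,w) (u,y) = y + A(z) u - A(z₀) u` and `L : F1 × F2 ≃ R4`, `L (u,y) = (u, y - A(z₀) u)`.
By `orr, ors, eE, eF, eG`: `h (L p) (L ξ) (L ξ') = q p.1 ξ.1 ξ'.1 + γ p (N p ξ) (N p ξ')` (write
`(u, y') = u₁ hr + u₂ hs + (0, y' + A(z) u)`).  `IsCurv q z₀ (1,0) (0,1) (kap2 E F G z₀)` as in `G_T1`.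
`QS.G_G2` at `p₀ = L⁻¹ x` gives the number `kap2 E F G z₀ - (3/4) γ (Ω,Ω)`, `Ω = Om Ar As z₀`, for the
metric on `F1 × F2` and the vectors `((1,0),0), ((0,1),0)`; `L` maps them to `hr Ar x, hs As x`.
Naturality under `L` near `p₀` (`Pool/Agent/Helper23/QG/CVT.lean`, `curv_nat`), and uniqueness of the
number (`h x` is positive definite, so the vectors `cab, caa, cbb` are unique). -/
def G_TK : Prop := ∀ (a b : ℤ) (gM : W2 → W2 →L[ℝ] W2 →L[ℝ] ℝ) (E F G : ℝ × ℝ → ℝ)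
  (Ar As : ℝ × ℝ → ℝ × ℝ), a * b ≠ 1 → IsBase (Mab a b) gM → IsRotG gM →
  TorDat gM E F G Ar As →
  ∀ x ∈ Reg2, ∀ K, IsCurv (gB gM pol2) x (hr Ar x) (hs As x) K →
    K = kap2 E F G (x.1, x.2.1) - 3 / 4 * gB gM pol2 x
      (0, 0, (Om Ar As (x.1, x.2.1)).1, (Om Ar As (x.1, x.2.1)).2)
      (0, 0, (Om Ar As (x.1, x.2.1)).1, (Om Ar As (x.1, x.2.1)).2)

/-- **P-TRP** (Gauss-Bonnet; uses `G_PL2`, `G_GBX`, `G_TK`, `G_T3`).

Proof.  For `x ∈ Reg2` the number `K` for `hr, hs` exists (`QS.G_G3`, or as in `G_GBX`), `K ≥ 0` and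
`kap2 = K + (3/4) h (Ω,Ω) ≥ 0` (`G_TK`; `h x` is positive definite).  So `kap2 E F G ≥ 0` on a dense set of
`z`, hence everywhere (it is continuous); by `G_T3` it is `0`.  So `K = -(3/4) h (Ω,Ω) ≤ 0`, `K = 0`,
`h (Ω,Ω) = 0`, `Ω = 0` at all `z` with `sin r cos r sin s cos s ≠ 0`, and everywhere by continuity
(`Ar, As` are `C¹`). -/
def G_TRP : Prop := ∀ (a b : ℤ) (gM : W2 → W2 →L[ℝ] W2 →L[ℝ] ℝ) (E F G : ℝ × ℝ → ℝ)
  (Ar As : ℝ × ℝ → ℝ × ℝ), a * b ≠ 1 → IsBase (Mab a b) gM → IsRotG gM →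
  TorDat gM E F G Ar As →
  (∀ x ∈ Reg2, ∀ K, IsCurv (gB gM pol2) x (hr Ar x) (hs As x) K → 0 ≤ K) →
  (∀ z, Om Ar As z = 0) ∧ ∀ x ∈ Reg2, IsCurv (gB gM pol2) x (hr Ar x) (hs As x) 0

/-- the curvature of the connection on the constant vectors `c, d` -/
noncomputable def Fcd {WW : Type} [NormedAddCommGroup WW] [NormedSpace ℝ WW] {n : ℕ}
    (B : WW → WW →L[ℝ] En n) (p : R4 → WW) (x c d : R4) : En n :=
  fderiv ℝ (fun y => B (p y) (fderiv ℝ p y d)) x c -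
    fderiv ℝ (fun y => B (p y) (fderiv ℝ p y c)) x d -
    (B (p x) (fderiv ℝ p x c) * B (p x) (fderiv ℝ p x d) -
      B (p x) (fderiv ℝ p x d) * B (p x) (fderiv ℝ p x c))

/-- **P-KS** (`G_GKC` for sheared planes; uses `G_GKC`).

Proof.  `L : R4 ≃L[ℝ] R4`, `L y = (y₁, y₂, y₃ + c₁ y₁ + d₁ y₂, y₄ + c₂ y₁ + d₂ y₂)`; `p' = p ∘ L`,
`Reg' = L⁻¹ Reg`; `IsPolar M p' Reg'` (`fderiv p' y u = fderiv p (L y) (L u)`,
`ContinuousLinearEquiv.comp_right_fderiv`).  Apply `G_GKC` to `p'` at `L⁻¹ x0`: `L ∂r = (1,0,c₁,c₂)`,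
`L ∂s = (0,1,d₁,d₂)`, `gB gM p' y u v = gB gM p (L y) (L u) (L v)` (naturality of `IsCurv` under `L`,
cf. `Pool/Agent/Helper22/QG/CVI.lean`), `FG B p' y = Fcd B p (L y) (L ∂r) (L ∂s)`. -/
def G_KS : Prop := ∀ (WW : Type) [NormedAddCommGroup WW] [NormedSpace ℝ WW] (M : Model WW)
  (p : R4 → WW) (Reg : Set R4) (k n : ℕ) (e : WW → En n) (B : WW → WW →L[ℝ] En n)
  (gM : WW → WW →L[ℝ] WW →L[ℝ] ℝ) (γ : WW × V n → V n →L[ℝ] V n →L[ℝ] ℝ) (ρ : ℝ),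
  IsPolar M p Reg → IsBundle M k e B → IsBase M gM → IsFibre M ρ e γ → 0 < ρ →
  TubeSec M k ρ e B gM γ →
  ∀ x0 ∈ Reg, ∀ c1 c2 d1 d2 K : ℝ, IsCurv (gB gM p) x0 (1, 0, c1, c2) (0, 1, d1, d2) K →
    0 ≤ K ∧ (K = 0 → Fcd B p x0 (1, 0, c1, c2) (0, 1, d1, d2) * e (p x0) = 0)

/-- **P-POI** (Poincaré lemma on the plane; Mathlib:
`Convex.exists_forall_hasFDerivAt_of_fderiv_symmetric`, applied to `ω z = -(Ar z dr + As z ds)` with
values in `ℝ × ℝ`; `φ` is `C²` since its derivative `ω` is `C¹`). -/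
def G_POI : Prop := ∀ Ar As : ℝ × ℝ → ℝ × ℝ, ContDiff ℝ 1 Ar → ContDiff ℝ 1 As →
  (∀ z, Om Ar As z = 0) →
  ∃ φ : ℝ × ℝ → ℝ × ℝ, ContDiff ℝ 2 φ ∧ ∀ z, fderiv ℝ φ z (1, 0) = -Ar z ∧
    fderiv ℝ φ z (0, 1) = -As z

/-- the shear of `R4` -/
def shr (φ : ℝ × ℝ → ℝ × ℝ) (x : R4) : R4 :=
  (x.1, x.2.1, x.2.2.1 + (φ (x.1, x.2.1)).1, x.2.2.2 + (φ (x.1, x.2.1)).2)

/-- the sheared polar coordinates -/
noncomputable def psh (φ : ℝ × ℝ → ℝ × ℝ) (x : R4) : W2 := pol2 (shr φ x)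

/-- **P-DTP** (the data of the ODE part in the sheared coordinates; uses `G_PL2`; cf.
`Pool/Agent/Helper13/QT/DAT2.lean`).

Proof.  `psh φ = pol2 ∘ shr φ` is `C²`; `D(shr φ) ∂r = hr Ar x =: c`, `D(shr φ) ∂s = hs As x =: d` at
every `x`; so `D(psh φ) ∂r = Dpol2 (shr φ x) c ∈ T`, the same for `∂s`.  The fields `smε, smp, smq, idem,
symm, skp, skq, dr, ds` as in `G_DAT2`.  `flat`: `bG B (psh φ) y = β (shr φ y) (D(shr φ)(y) ∂r)` with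
`β x v = B (pol2 x) (Dpol2 x v)`; differentiate; the terms with the second derivatives of `shr φ` cancel
(symmetry of second derivatives of the `C²` function `φ`), so
`FG B (psh φ) x = Fcd B pol2 (shr φ x) c d`, for `x ∈ Reg2` (`shr φ x ∈ Reg2`) its product with
`e (psh φ x)` is `0`; by continuity for all `x`.  The identities `perα, ..., s1` as in `G_DAT2`: `pol2` at
`r = 0`, and `Dpol2 (0,c₂,c₃,c₄)` there, do not depend on `α`; at `r = π/2`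
`pol2 (π/2,s,α,β) = act2 a b e^{iα} e^{-iaα} (pol2 (π/2,s,0,β+aα))` and the same for
`Dpol2 (0,c₂,c₃,c₄)`; similarly for `s = 0` (`Dpol2 (c₁,0,c₃,c₄)`) and `s = π/2`. -/
def G_DTP : Prop := ∀ (a b : ℤ), b = 0 ∨ (a = 1 ∧ b = 2) → ∀ (k n : ℕ) (e : W2 → En n)
  (B : W2 → W2 →L[ℝ] En n) (φ Ar As : ℝ × ℝ → ℝ × ℝ), IsBundle (Mab a b) k e B →
  ContDiff ℝ 2 φ → (∀ z, fderiv ℝ φ z (1, 0) = -Ar z ∧ fderiv ℝ φ z (0, 1) = -As z) →
  (∀ x ∈ Reg2, Fcd B pol2 x (hr Ar x) (hs As x) * e (pol2 x) = 0) →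
  Dat2 a b (fun x => e (psh φ x)) (bG B (psh φ)) (cG B (psh φ))

/-- **P-SPL** (the splitting in the unsheared coordinates).
Proof.  `f_j (r,s,α,β) = f'_j (r, s, α - φ₁(r,s), β - φ₂(r,s))`, `e (psh φ (r,s,α-φ₁,β-φ₂)) =
e (pol2 (r,s,α,β))`.  `Compat2`: e.g. at `r = π/2`:
`f'_j (π/2, s, α - φ₁, β - φ₂) = f'_j (π/2, s, 0, β - φ₂ + a (α - φ₁))` and
`f_j (π/2, s, 0, β + aα) = f'_j (π/2, s, -φ₁, β + aα - φ₂) = f'_j (π/2, s, 0, β + aα - φ₂ - a φ₁)`. -/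
def G_SPL : Prop := ∀ (a b : ℤ) (n : ℕ) (e : W2 → En n) (φ : ℝ × ℝ → ℝ × ℝ), Continuous φ →
  BoxSplit2 a b (fun x => e (psh φ x)) → BoxSplit2 a b (fun x => e (pol2 x))

end Pool.Agent.Helper61.QT
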