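import Pool.Agent.Helper61.QT.GoalsH
import Pool.Agent.Helper61.QG.GoalsV

/-!
# Project QT (MP_0ebdb3_gt): assembly of the theorem for torus-invariant souls from the goals
-/

set_option autoImplicit false

open Set ComplexConjugate

namespace Pool.Agent.Helper61.QT

open Pool.Agent Pool.Agent.Helper61 Pool.Agent.Helper61.QG
open Pool.Agent.Helper61.QS (V En rk R4 IsCurv SecNN Gam dd IsIso)
open Pool.Agent.Helper61.QM (Model W2 Mab pol2 act2 o1 o2 rot IsRe IsIm)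

/-- the theorem at the operator level -/
def G_OPT : Prop := ∀ (n k : ℕ) (a b : ℤ) (e : W2 → En n) (B : W2 → W2 →L[ℝ] En n)
  (gM : W2 → W2 →L[ℝ] W2 →L[ℝ] ℝ) (γ : W2 × V n → V n →L[ℝ] V n →L[ℝ] ℝ) (ρ : ℝ),
  b = 0 ∨ (a = 1 ∧ b = 2) → IsBundle (Mab a b) k e B → IsBase (Mab a b) gM →
  IsFibre (Mab a b) ρ e γ → 0 < ρ →
  (IsToricG gM ∨ ∀ x ∈ Reg2, IsCurv (gB gM pol2) x (1, 0, 0, 0) (0, 1, 0, 0) 0) →
  TubeSec (Mab a b) k ρ e B gM γ → Splits (Mab a b) e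

theorem opMain (hKC : G_GKC) (hTOR : G_TOR) (hPL : G_PL2) (hDAT : G_DAT2) (hHOL : G_HOL2)
    (hISO : QS.G_ISO) (hLP : G_LP2) (hQC : G_QC0) (hK4 : G_K4) (hEJ : G_EJ2) (hDES : G_DES2) :
    G_OPT := by
  intro n k a b e B gM γ ρ hab hE hM hγ hρ hcl hsec
  have hab1 : a * b ≠ 1 := by
    rcases hab with rfl | ⟨rfl, rfl⟩
    · simp
    · norm_num
  have hpol : IsPolar (Mab a b) pol2 Reg2 := (hPL a b hab1).1
  have hnn : ∀ x ∈ Reg2, ∀ K, IsCurv (gB gM pol2) x (1, 0, 0, 0) (0, 1, 0, 0) K → 0 ≤ K := by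
    intro x hx K hK
    exact (hKC W2 (Mab a b) pol2 Reg2 k n e B gM γ ρ hpol hE hM hγ hρ hsec x hx K hK).1
  have hflat : ∀ x ∈ Reg2, IsCurv (gB gM pol2) x (1, 0, 0, 0) (0, 1, 0, 0) 0 := by
    rcases hcl with hcl | hcl
    · exact hTOR a b gM hab1 hM hcl hnn
    · exact hcl
  have hF : ∀ x ∈ Reg2, FG B pol2 x * e (pol2 x) = 0 := by
    intro x hx
    exact (hKC W2 (Mab a b) pol2 Reg2 k n e B gM γ ρ hpol hE hM hγ hρ hsec x hx 0
      (hflat x hx)).2 rfl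
  have hdat := hDAT a b hab k n e B hE hF
  obtain ⟨R, T, hol⟩ := hHOL a b n _ _ _ hdat
  have hx0 : pol2 (0, 0, 0, 0) ∈ (Mab a b).X := hpol.mem _
  obtain ⟨-, J, hJ1, hJ2⟩ := hISO n (e (pol2 (0, 0, 0, 0))) (hE.idem _ hx0) (hE.symm _ hx0)
  have hJ : IsIso ((fun x => e (pol2 x)) (0, 0, 0, 0)) J := ⟨hJ1, hJ2⟩
  have hloops := (hLP a b n _ _ R T J hab hol hJ).1
  have hq : QConcl a b _ (lg J R) (lf J T) := by
    rcases hab with rfl | ⟨rfl, rfl⟩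
    · exact hQC a _ _ _ _ _ hloops
    · exact hK4 _ _ _ _ _ hloops
  have hsplit := hEJ a b n _ _ R T J hab hol hJ hq
  exact hDES a b hab n e hE.inv hsplit

theorem mainT (hop : G_OPT) (hCVI : G_CVI) (hCVX : G_CVX) (hCVB : G_CVB) (hCVT : G_CVT)
    (hCVS : G_CVS) : QM.G_MT := by
  intro n k a b e B gM γ ρ hab hE hM hγ hρ hcl hsec
  obtain ⟨e', B', g', γ', hrel⟩ := hCVX W2 n e B gM γ hE.smooth_e hE.smooth_B hE.linear_B
    hM.smooth hM.linear hγ.smooth hγ.linear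
  obtain ⟨h1, h2, h3⟩ := hCVB W2 (Mab a b) n k ρ e B gM γ e' B' g' γ' hrel hρ
  have hsec' := hCVT W2 (Mab a b) n k ρ e B gM γ e' B' g' γ' hrel hρ hsec
  have hcl' : IsToricG g' ∨
      ∀ x ∈ Reg2, IsCurv (gB g' pol2) x (1, 0, 0, 0) (0, 1, 0, 0) 0 := by
    rcases hcl with hcl | hcl
    · refine Or.inl ⟨?_, ?_⟩
      · intro c h1 h2 h3 h4 P hP u hu u' hu'
        rw [hrel.hg, hrel.hg]
        exact hcl.rot c h1 h2 h3 h4 P hP u hu u' hu'
      · intro P hP u hu v hP' hu' hv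
        rw [hrel.hg]
        exact hcl.polar P hP u hu v hP' hu' hv
    · refine Or.inr fun x hx => ?_
      have h := hcl x hx.1 hx.2.1 hx.2.2.1 hx.2.2.2
      have h' := (hCVI R4 R4 (ContinuousLinearEquiv.refl ℝ R4) (QM.gB gM pol2) (gB g' pol2)
        (fun z u v => by
          simp only [QM.gB, gB, ContinuousLinearMap.bilinearComp_apply,
            ContinuousLinearEquiv.coe_refl', id, hrel.hg]) x
        (1, 0, 0, 0) (0, 1, 0, 0) 0).1 h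
      simpa using h'
  exact hCVS W2 (Mab a b) n e e' hrel.he (hop n k a b e' B' g' γ' ρ hab (h1 hE) (h2 hM) (h3 hγ) hρ
    hcl' hsec')

end Pool.Agent.Helper61.QT
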