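import Pool.Agent.Helper61.QT.GoalsP
import Pool.Agent.Helper61.QM.StmtP

/-!
# Project QT+ (MP_0ebdb3_gt): assembly of the theorem for all torus-invariant souls
-/

set_option autoImplicit false

open Set ComplexConjugate

namespace Pool.Agent.Helper61.QT

open Pool.Agent Pool.Agent.Helper61 Pool.Agent.Helper61.QG
open Pool.Agent.Helper61.QS (V En rk R4 IsCurv SecNN Gam dd IsIso)
open Pool.Agent.Helper61.QM (Model W2 Mab pol2 act2 o1 o2 rot IsRe IsIm)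

/-- the theorem at the operator level -/
def G_OPP : Prop := ∀ (n k : ℕ) (a b : ℤ) (e : W2 → En n) (B : W2 → W2 →L[ℝ] En n)
  (gM : W2 → W2 →L[ℝ] W2 →L[ℝ] ℝ) (γ : W2 × V n → V n →L[ℝ] V n →L[ℝ] ℝ) (ρ : ℝ),
  b = 0 ∨ (a = 1 ∧ b = 2) → IsBundle (Mab a b) k e B → IsBase (Mab a b) gM →
  IsFibre (Mab a b) ρ e γ → 0 < ρ → IsRotG gM →
  TubeSec (Mab a b) k ρ e B gM γ → Splits (Mab a b) e

theorem opMainP (hKS : G_KS) (hTD : G_TD) (hTRP : G_TRP) (hPOI : G_POI) (hDTP : G_DTP)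
    (hSPL : G_SPL) (hPL : G_PL2) (hHOL : G_HOL2) (hISO : QS.G_ISO) (hLP : G_LP2) (hQC : G_QC0)
    (hK4 : G_K4) (hEJ : G_EJ2) (hDES : G_DES2) : G_OPP := by
  intro n k a b e B gM γ ρ hab hE hM hγ hρ hrot hsec
  have hab1 : a * b ≠ 1 := by
    rcases hab with rfl | ⟨rfl, rfl⟩
    · simp
    · norm_num
  have hpol : IsPolar (Mab a b) pol2 Reg2 := (hPL a b hab1).1
  obtain ⟨E, F, G, Ar, As, hT⟩ := hTD a b gM hab hM hrot
  have hks : ∀ x ∈ Reg2, ∀ K, IsCurv (gB gM pol2) x (hr Ar x) (hs As x) K →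
      0 ≤ K ∧ (K = 0 → Fcd B pol2 x (hr Ar x) (hs As x) * e (pol2 x) = 0) := by
    intro x hx K hK
    exact hKS W2 (Mab a b) pol2 Reg2 k n e B gM γ ρ hpol hE hM hγ hρ hsec x hx _ _ _ _ K hK
  obtain ⟨hOm, hflat⟩ := hTRP a b gM E F G Ar As hab1 hM hrot hT fun x hx K hK => (hks x hx K hK).1
  obtain ⟨φ, hφ, hφd⟩ := hPOI Ar As hT.smAr hT.smAs hOm
  have hF : ∀ x ∈ Reg2, Fcd B pol2 x (hr Ar x) (hs As x) * e (pol2 x) = 0 := by
    intro x hx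
    exact (hks x hx 0 (hflat x hx)).2 rfl
  have hdat := hDTP a b hab k n e B φ Ar As hE hφ hφd hF
  obtain ⟨R, T, hol⟩ := hHOL a b n _ _ _ hdat
  have hx0 : psh φ (0, 0, 0, 0) ∈ (Mab a b).X := hpol.mem _
  obtain ⟨-, J, hJ1, hJ2⟩ := hISO n (e (psh φ (0, 0, 0, 0))) (hE.idem _ hx0) (hE.symm _ hx0)
  have hJ : IsIso ((fun x => e (psh φ x)) (0, 0, 0, 0)) J := ⟨hJ1, hJ2⟩
  have hloops := (hLP a b n _ _ R T J hab hol hJ).1
  have hq : QConcl a b _ (lg J R) (lf J T) := by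
    rcases hab with rfl | ⟨rfl, rfl⟩
    · exact hQC a _ _ _ _ _ hloops
    · exact hK4 _ _ _ _ _ hloops
  have hsplit := hEJ a b n _ _ R T J hab hol hJ hq
  exact hDES a b hab n e hE.inv (hSPL a b n e φ hφ.continuous hsplit)

theorem mainP (hop : G_OPP) (hCVX : G_CVX) (hCVB : G_CVB) (hCVT : G_CVT)
    (hCVS : G_CVS) : QM.G_MP := by
  intro n k a b e B gM γ ρ hab hE hM hγ hρ hcl hsec
  obtain ⟨e', B', g', γ', hrel⟩ := hCVX W2 n e B gM γ hE.smooth_e hE.smooth_B hE.linear_B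
    hM.smooth hM.linear hγ.smooth hγ.linear
  obtain ⟨h1, h2, h3⟩ := hCVB W2 (Mab a b) n k ρ e B gM γ e' B' g' γ' hrel hρ
  have hsec' := hCVT W2 (Mab a b) n k ρ e B gM γ e' B' g' γ' hrel hρ hsec
  have hcl' : IsRotG g' := by
    intro c h1 h2 h3 h4 P hP u hu u' hu'
    rw [hrel.hg, hrel.hg]
    exact hcl c h1 h2 h3 h4 P hP u hu u' hu'
  exact hCVS W2 (Mab a b) n e e' hrel.he (hop n k a b e' B' g' γ' ρ hab (h1 hE) (h2 hM) (h3 hγ) hρ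
    hcl' hsec')

end Pool.Agent.Helper61.QT
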